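import Pool.Agent.H533R2.VS.Spec2

set_option autoImplicit false

/-!
Automorphism groups of initial segments: countable if and only if some finite set has trivial
pointwise stabiliser.
-/

namespace Pool.Agent.N481.VT

open Set MeasureTheory
open Pool.Agent.H533R2.VO (RS)

variable {a : ℕ → ℕ}

/-- The automorphisms of the segment of `m`. -/
def SG (x : RS a) (D : ℕ → ℕ → Prop) (m : ℕ) : Set (Equiv.Perm {n // D n m}) :=
  {σ | (∀ (i : ℕ) (v : Fin (a i) → {n // D n m}),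
      x i (fun k => (σ (v k) : ℕ)) = x i fun k => (v k : ℕ)) ∧
    ∀ u v, D (σ u) (σ v) ↔ D u v}

/-- The same as pairs of functions on `ℕ`. -/
structure PA (x : RS a) (D : ℕ → ℕ → Prop) (m : ℕ) (s t : ℕ → ℕ) : Prop where
  st : ∀ n, s (t n) = n
  ts : ∀ n, t (s n) = n
  out : ∀ n, ¬ D n m → s n = n
  rel : ∀ (i : ℕ) (v : Fin (a i) → ℕ), (∀ k, D (v k) m) → x i (s ∘ v) = x i v
  pre : ∀ u v, D u m → D v m → (D (s u) (s v) ↔ D u v)

/-- Some finite set has trivial stabiliser. -/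
def Base (x : RS a) (D : ℕ → ℕ → Prop) (m : ℕ) : Prop :=
  ∃ C : List ℕ, ∀ s t, PA x D m s t → (∀ c ∈ C, s c = c) → s = id

variable {x : RS a} {D : ℕ → ℕ → Prop} {m : ℕ} {s t s' t' : ℕ → ℕ}

theorem PA.inj (h : PA x D m s t) {u v : ℕ} (e : s u = s v) : u = v := by
  rw [← h.ts u, e, h.ts]

theorem PA.seg (h : PA x D m s t) {n : ℕ} (hn : D n m) : D (s n) m := by
  by_contra hc
  have h1 := h.inj (h.out _ hc)
  rw [h1] at hc
  exact hc hn

theorem PA.seg' (h : PA x D m s t) {n : ℕ} (hn : D n m) : D (t n) m := by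
  by_contra hc
  have h1 := h.out _ hc
  rw [h.st] at h1
  rw [← h1] at hc
  exact hc hn

theorem PA.out' (h : PA x D m s t) {n : ℕ} (hn : ¬ D n m) : t n = n := by
  conv_lhs => rw [← h.out n hn]
  exact h.ts n

theorem PA.one : PA x D m id id :=
  ⟨fun _ => rfl, fun _ => rfl, fun _ _ => rfl, fun _ _ _ => rfl, fun _ _ _ _ => Iff.rfl⟩

theorem PA.symm (h : PA x D m s t) : PA x D m t s := by
  refine ⟨h.ts, h.st, fun n hn => h.out' hn, fun i v hv => ?_, fun u v hu hv => ?_⟩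
  · rw [← h.rel i (t ∘ v) fun k => h.seg' (hv k)]
    congr 1
    funext k
    exact (h.st _)
  · rw [← h.pre (t u) (t v) (h.seg' hu) (h.seg' hv), h.st, h.st]

theorem PA.comp (h : PA x D m s t) (h' : PA x D m s' t') : PA x D m (s' ∘ s) (t ∘ t') := by
  refine ⟨fun n => ?_, fun n => ?_, fun n hn => ?_, fun i v hv => ?_, fun u v hu hv => ?_⟩
  · show s' (s (t (t' n))) = n
    rw [h.st, h'.st]
  · show t (t' (s' (s n))) = n
    rw [h'.ts, h.ts]
  · show s' (s n) = n
    rw [h.out n hn, h'.out n hn]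
  · rw [Function.comp_assoc, h'.rel i (s ∘ v) fun k => h.seg (hv k), h.rel i v hv]
  · show D (s' (s u)) (s' (s v)) ↔ _
    rw [h'.pre _ _ (h.seg hu) (h.seg hv), h.pre _ _ hu hv]

open Classical in
/-- extension by the identity -/
noncomputable def ext (σ : Equiv.Perm {n // D n m}) (n : ℕ) : ℕ :=
  if h : D n m then (σ ⟨n, h⟩ : ℕ) else n

theorem ext_pos (σ : Equiv.Perm {n // D n m}) {n : ℕ} (h : D n m) : ext σ n = σ ⟨n, h⟩ :=
  dif_pos h

theorem ext_neg (σ : Equiv.Perm {n // D n m}) {n : ℕ} (h : ¬ D n m) : ext σ n = n :=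
  dif_neg h

theorem ext_inv (σ : Equiv.Perm {n // D n m}) (n : ℕ) : ext σ (ext σ.symm n) = n := by
  by_cases h : D n m
  · rw [ext_pos σ.symm h, ext_pos σ (σ.symm ⟨n, h⟩).2]
    simp
  · rw [ext_neg σ.symm h, ext_neg σ h]

theorem pa_ext {σ : Equiv.Perm {n // D n m}} (h : σ ∈ SG x D m) : PA x D m (ext σ) (ext σ.symm) := by
  refine ⟨ext_inv σ, fun n => ?_, fun n hn => ext_neg σ hn, fun i v hv => ?_, fun u v hu hv => ?_⟩
  · have := ext_inv σ.symm n
    rwa [Equiv.symm_symm] at this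
  · have h1 := h.1 i (fun k => ⟨v k, hv k⟩)
    simp only at h1
    rw [← h1]
    congr 1
    funext k
    exact ext_pos σ (hv k)
  · rw [ext_pos σ hu, ext_pos σ hv]
    exact h.2 ⟨u, hu⟩ ⟨v, hv⟩

theorem PA.exists_perm (h : PA x D m s t) : ∃ σ ∈ SG x D m, ext σ = s ∧ ext σ.symm = t := by
  refine ⟨⟨fun p => ⟨s p, h.seg p.2⟩, fun p => ⟨t p, h.seg' p.2⟩, fun p => Subtype.ext (h.ts _),
    fun p => Subtype.ext (h.st _)⟩, ⟨fun i v => ?_, fun u v => ?_⟩, ?_, ?_⟩
  · exact h.rel i (fun k => v k) fun k => (v k).2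
  · exact h.pre u v u.2 v.2
  · funext n
    by_cases hn : D n m
    · rw [ext_pos _ hn]
      rfl
    · rw [ext_neg _ hn, h.out n hn]
  · funext n
    by_cases hn : D n m
    · rw [ext_pos _ hn]
      rfl
    · rw [ext_neg _ hn, h.out' hn]

theorem countable_of_base (h : Base x D m) : (SG x D m).Countable := by
  obtain ⟨C, hC⟩ := h
  refine Set.MapsTo.countable_of_injOn (f := fun σ : Equiv.Perm {n // D n m} => C.map (ext σ))
    (t := univ) (fun _ _ => mem_univ _) ?_ (countable_univ (α := List ℕ))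
  intro σ hσ τ hτ e
  have h1 := (pa_ext hσ).comp (pa_ext hτ).symm
  have h2 : (ext τ.symm ∘ ext σ) = id := by
    refine hC _ _ h1 fun c hc => ?_
    have h3 := List.map_inj_left.1 e c hc
    show ext τ.symm (ext σ c) = c
    rw [h3]
    exact (pa_ext hτ).ts c
  apply Equiv.ext
  intro p
  apply Subtype.ext
  have h3 := congrFun h2 (p : ℕ)
  have h4 : ext τ (ext τ.symm (ext σ p)) = ext τ p := congrArg (ext τ) h3
  rw [(pa_ext hτ).st, ext_pos σ p.2, ext_pos τ p.2] at h4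
  exact h4

theorem polish_of {X : Type} [TopologicalSpace X] [h1 : SecondCountableTopology X]
    [h2 : TopologicalSpace.IsCompletelyMetrizableSpace X] : PolishSpace X := { h1, h2 with }

theorem closed_PA (x : RS a) (D : ℕ → ℕ → Prop) (m : ℕ) :
    IsClosed {q : (ℕ → ℕ) × (ℕ → ℕ) | PA x D m q.1 q.2} := by
  have hs : ∀ n, Continuous fun q : (ℕ → ℕ) × (ℕ → ℕ) => q.1 n := fun n =>
    (continuous_apply n).comp continuous_fst
  have ht : ∀ n, Continuous fun q : (ℕ → ℕ) × (ℕ → ℕ) => q.2 n := fun n =>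
    (continuous_apply n).comp continuous_snd
  have e : {q : (ℕ → ℕ) × (ℕ → ℕ) | PA x D m q.1 q.2} =
      {q | ∀ n k, q.2 n = k → q.1 k = n} ∩ {q | ∀ n k, q.1 n = k → q.2 k = n} ∩
      {q | ∀ n, ¬ D n m → q.1 n = n} ∩
      {q | ∀ (i : ℕ) (v : Fin (a i) → ℕ), (∀ k, D (v k) m) → x i (q.1 ∘ v) = x i v} ∩
      {q | ∀ u v, D u m → D v m → (D (q.1 u) (q.1 v) ↔ D u v)} := by
    ext q
    constructor
    · intro h
      have h' : PA x D m q.1 q.2 := h
      exact ⟨⟨⟨⟨fun n k e => e ▸ h'.st n, fun n k e => e ▸ h'.ts n⟩, h'.out⟩, h'.rel⟩, h'.pre⟩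
    · rintro ⟨⟨⟨⟨h1, h2⟩, h3⟩, h4⟩, h5⟩
      exact ⟨fun n => h1 n _ rfl, fun n => h2 n _ rfl, h3, h4, h5⟩
  rw [e]
  have d1 : ∀ {α : Type} [TopologicalSpace α] [DiscreteTopology α] (f : (ℕ → ℕ) × (ℕ → ℕ) → α)
      (_ : Continuous f) (P : α → Prop), IsClosed {q | P (f q)} := by
    intro α _ _ f hf P
    exact (isClosed_discrete {z | P z}).preimage hf
  refine (((?_ : IsClosed _).inter ?_).inter ?_).inter ?_ |>.inter ?_
  · simp only [ofPred_forall]
    refine isClosed_iInter fun n => isClosed_iInter fun k => ?_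
    exact d1 (fun q => (q.2 n, q.1 k)) ((ht n).prodMk (hs k)) fun z => z.1 = k → z.2 = n
  · simp only [ofPred_forall]
    refine isClosed_iInter fun n => isClosed_iInter fun k => ?_
    exact d1 (fun q => (q.1 n, q.2 k)) ((hs n).prodMk (ht k)) fun z => z.1 = k → z.2 = n
  · simp only [ofPred_forall]
    refine isClosed_iInter fun n => isClosed_iInter fun _ => ?_
    exact d1 (fun q => q.1 n) (hs n) fun z => z = n
  · simp only [ofPred_forall]
    refine isClosed_iInter fun i => isClosed_iInter fun v => isClosed_iInter fun _ => ?_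
    exact d1 (fun q => q.1 ∘ v) (continuous_pi fun k => hs (v k)) fun z => x i z = x i v
  · simp only [ofPred_forall]
    refine isClosed_iInter fun u => isClosed_iInter fun v => isClosed_iInter fun _ =>
      isClosed_iInter fun _ => ?_
    exact d1 (fun q => (q.1 u, q.1 v)) ((hs u).prodMk (hs v)) fun z => D z.1 z.2 ↔ D u v

theorem base_of_countable (h : (SG x D m).Countable) : Base x D m := by
  classical
  set G : Set ((ℕ → ℕ) × (ℕ → ℕ)) := {q | PA x D m q.1 q.2} with hG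
  have hGc : IsClosed G := closed_PA x D m
  have hGn : G.Countable := by
    refine (h.image fun σ => (ext σ, ext σ.symm)).mono ?_
    rintro ⟨s, t⟩ hq
    obtain ⟨σ, h1, h2, h3⟩ := PA.exists_perm hq
    exact ⟨σ, h1, Prod.ext h2 h3⟩
  have : Countable G := hGn.to_subtype
  have hne : Nonempty G := ⟨⟨(id, id), PA.one⟩⟩
  have hpol : PolishSpace ((ℕ → ℕ) × (ℕ → ℕ)) := polish_of
  have hG2 : PolishSpace G := hGc.polishSpace
  obtain ⟨g, hg⟩ := nonempty_interior_of_iUnion_of_closed (X := G) (f := fun g : G => {g})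
    (fun g => isClosed_singleton) (by ext g; simp)
  obtain ⟨g', hg'⟩ := hg
  have h1 : g' ∈ ({g} : Set G) := interior_subset hg'
  obtain rfl : g' = g := h1
  rw [mem_interior] at hg'
  obtain ⟨V, hV1, hV2, hV3⟩ := hg'
  obtain ⟨U, hU, rfl⟩ := isOpen_induced_iff.1 hV2
  have h2 : (g' : (ℕ → ℕ) × (ℕ → ℕ)) ∈ U := hV3
  obtain ⟨U1, U2, hU1, hU2, m1, m2, hUU⟩ := isOpen_prod_iff.1 hU _ _ h2
  obtain ⟨I, u, hI1, hI2⟩ := isOpen_pi_iff.1 hU1 _ m1
  obtain ⟨J, w, hJ1, hJ2⟩ := isOpen_pi_iff.1 hU2 _ m2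
  refine ⟨I.toList ++ (J.toList.map g'.1.2), fun s t hst hC => ?_⟩
  have h3 := hst.comp g'.2
  have h4 : ((g'.1.1 ∘ s, t ∘ g'.1.2) : (ℕ → ℕ) × (ℕ → ℕ)) ∈ U := by
    apply hUU
    refine ⟨hI2 fun i hi => ?_, hJ2 fun j hj => ?_⟩
    · show g'.1.1 (s i) ∈ u i
      rw [hC i (List.mem_append_left _ (Finset.mem_toList.2 hi))]
      exact (hI1 i hi).2
    · show t (g'.1.2 j) ∈ w j
      have h5 := hC (g'.1.2 j) (List.mem_append_right _
        (List.mem_map.2 ⟨j, Finset.mem_toList.2 hj, rfl⟩))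
      have h6 : t (g'.1.2 j) = g'.1.2 j := by
        conv_lhs => rw [← h5]
        exact hst.ts _
      rw [h6]
      exact (hJ1 j hj).2
  have h5 : (⟨(g'.1.1 ∘ s, t ∘ g'.1.2), h3⟩ : G) ∈ ({g'} : Set G) := hV1 h4
  have h6 : g'.1.1 ∘ s = g'.1.1 := congrArg Prod.fst (congrArg Subtype.val h5)
  funext n
  exact PA.inj g'.2 (congrFun h6 n)

theorem countable_iff_base : (SG x D m).Countable ↔ Base x D m :=
  ⟨base_of_countable, countable_of_base⟩

end Pool.Agent.N481.VT
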