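import Mathlib

set_option autoImplicit false

/-!
Changes of a binary relation along a linear order, and greedy decomposition into monotone pieces.
-/

namespace Pool.Agent.N481.VT

/-- strict linear orders -/
structure SLO (l : ℕ → ℕ → Prop) : Prop where
  irr : ∀ m, ¬ l m m
  tr : ∀ m n k, l m n → l n k → l m k
  tot : ∀ m n, m = n ∨ l m n ∨ l n m

/-- `u` is the last of `k + 1` increasing elements of `q`, at which `R m` changes its value `k`
times. -/
def Alt (l R : ℕ → ℕ → Prop) (q : ℕ → Prop) : ℕ → ℕ → ℕ → Prop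
  | 0, _, u => q u
  | k + 1, m, u => q u ∧ ∃ v, Alt l R q k m v ∧ l v u ∧ (R m v ↔ ¬ R m u)

/-- The value of `R m` changes at least `k` times on the elements of `q` up to `n`. -/
def Chg (l R : ℕ → ℕ → Prop) (q : ℕ → Prop) (k m n : ℕ) : Prop :=
  ∃ u, Alt l R q k m u ∧ (u = n ∨ l u n)

/-- The position of the `k`-th change is a monotone function on `A`. -/
def Mon (l R : ℕ → ℕ → Prop) (q : ℕ → Prop) (k : ℕ) (A : ℕ → Prop) : Prop :=
  (∀ m m', A m → A m' → l m m' → ∀ n, Chg l R q k m n → Chg l R q k m' n) ∨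
  (∀ m m', A m → A m' → l m m' → ∀ n, Chg l R q k m' n → Chg l R q k m n)

/-- finitely many changes -/
def FinC (l R : ℕ → ℕ → Prop) (q : ℕ → Prop) (m : ℕ) : Prop := ∃ k, ∀ n, ¬ Chg l R q k m n

/-- the first value is `True` -/
def Ini (l R : ℕ → ℕ → Prop) (q : ℕ → Prop) (m : ℕ) : Prop :=
  ∃ u, q u ∧ ∀ v, q v → (v = u ∨ l v u) → R m v

variable {l R : ℕ → ℕ → Prop} {q : ℕ → Prop} {k m n : ℕ}

theorem Alt.mem {u : ℕ} (h : Alt l R q k m u) : q u := by
  cases k with
  | zero => exact h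
  | succ k => exact h.1

theorem chg_right (hl : SLO l) {n' : ℕ} (h : Chg l R q k m n) (hn : l n n') :
    Chg l R q k m n' := by
  obtain ⟨u, h1, h2⟩ := h
  refine ⟨u, h1, Or.inr ?_⟩
  rcases h2 with rfl | h2
  · exact hn
  · exact hl.tr _ _ _ h2 hn

theorem chg_pred (hl : SLO l) (h : Chg l R q (k + 1) m n) : Chg l R q k m n := by
  obtain ⟨u, ⟨h1, v, h3, h4, h5⟩, h2⟩ := h
  refine ⟨v, h3, Or.inr ?_⟩
  rcases h2 with rfl | h2
  · exact h4
  · exact hl.tr _ _ _ h4 h2

theorem chg_le (hl : SLO l) {j : ℕ} (hj : j ≤ k) (h : Chg l R q k m n) : Chg l R q j m n := by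
  induction hj with
  | refl => exact h
  | step _ ih => exact ih (chg_pred hl h)

/-- at the end of a maximal alternating chain the value is determined by the parity -/
theorem alt_val (hl : SLO l) : ∀ (k u : ℕ), Alt l R q k m u → ¬ Chg l R q (k + 1) m u →
    (R m u ↔ (Ini l R q m ↔ Even k)) := by
  intro k
  induction k with
  | zero =>
    intro u h1 h2
    have hc : ∀ v w, q v → q w → (w = u ∨ l w u) → l v w → (R m v ↔ R m w) := by
      intro v w hv hw hwu hvw
      by_contra hcon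
      refine h2 ⟨w, ⟨hw, v, hv, hvw, ?_⟩, hwu⟩
      tauto
    have hc' : ∀ v, q v → (v = u ∨ l v u) → (R m v ↔ R m u) := by
      rintro v hv (rfl | hvu)
      · exact Iff.rfl
      · exact hc v u hv h1 (Or.inl rfl) hvu
    have h3 : Ini l R q m ↔ R m u := by
      constructor
      · rintro ⟨u', h4, h5⟩
        rcases hl.tot u u' with rfl | h6 | h6
        · exact h5 _ h1 (Or.inl rfl)
        · exact h5 _ h1 (Or.inr h6)
        · exact (hc' u' h4 (Or.inr h6)).1 (h5 u' h4 (Or.inl rfl))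
      · intro h4
        exact ⟨u, h1, fun v hv hvu => (hc' v hv hvu).2 h4⟩
    rw [h3]
    simp
  | succ k ih =>
    rintro u ⟨h1, v, h3, h4, h5⟩ h2
    have h6 : ¬ Chg l R q (k + 1) m v := by
      rintro ⟨w, h7, h8⟩
      have hwu : l w u := by
        rcases h8 with rfl | h8
        · exact h4
        · exact hl.tr _ _ _ h8 h4
      by_cases h9 : R m w ↔ ¬ R m u
      · exact h2 ⟨u, ⟨h1, w, h7, hwu, h9⟩, Or.inl rfl⟩
      · have h10 : R m w ↔ ¬ R m v := by tauto
        have h11 : l w v := by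
          rcases h8 with rfl | h8
          · tauto
          · exact h8
        exact h2 ⟨v, ⟨h3.mem, w, h7, h11, h10⟩, Or.inr h4⟩
    have h7 := ih v h3 h6
    have h8 : Even (k + 1) ↔ ¬ Even k := Nat.even_add_one
    rw [h8]
    tauto

/-- the value of the relation from the number of changes -/
theorem val_iff (hl : SLO l) (hq : q n) (hf : FinC l R q m) :
    R m n ↔ ∃ k, Chg l R q k m n ∧ ¬ Chg l R q (k + 1) m n ∧ (Ini l R q m ↔ Even k) := by
  have key : ∀ k, Chg l R q k m n → ¬ Chg l R q (k + 1) m n →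
      (R m n ↔ (Ini l R q m ↔ Even k)) := by
    rintro k ⟨u, h1, h2⟩ h3
    have h4 : ¬ Chg l R q (k + 1) m u := by
      intro h4
      rcases h2 with rfl | h2
      · exact h3 h4
      · exact h3 (chg_right hl h4 h2)
    rw [← alt_val hl k u h1 h4]
    rcases h2 with rfl | h2
    · exact Iff.rfl
    · by_contra hcon
      exact h3 ⟨n, ⟨hq, u, h1, h2, by tauto⟩, Or.inl rfl⟩
  have hex : ∃ k, Chg l R q k m n ∧ ¬ Chg l R q (k + 1) m n := by
    classical
    obtain ⟨K, hK⟩ := hf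
    have h0 : ∃ k, ¬ Chg l R q k m n := ⟨K, hK n⟩
    have h1 := Nat.find_spec h0
    have h2 : Nat.find h0 ≠ 0 := by
      intro h3
      rw [h3] at h1
      exact h1 ⟨n, hq, Or.inl rfl⟩
    obtain ⟨k, hk⟩ := Nat.exists_eq_succ_of_ne_zero h2
    refine ⟨k, ?_, ?_⟩
    · by_contra hcon
      have := Nat.find_min' h0 hcon
      omega
    · rw [hk] at h1
      exact h1
  constructor
  · intro h
    obtain ⟨k, h1, h2⟩ := hex
    exact ⟨k, h1, h2, (key k h1 h2).1 h⟩
  · rintro ⟨k, h1, h2, h3⟩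
    exact (key k h1 h2).2 h3

/-! ### Greedy pieces -/

theorem Mon.sub {A A' : ℕ → Prop} (h : Mon l R q k A) (hs : ∀ m, A' m → A m) :
    Mon l R q k A' := by
  rcases h with h | h
  · exact Or.inl fun m m' h1 h2 => h m m' (hs _ h1) (hs _ h2)
  · exact Or.inr fun m m' h1 h2 => h m m' (hs _ h1) (hs _ h2)

/-- the points which are in the first `j` greedy pieces of `P` -/
def Gr (l R : ℕ → ℕ → Prop) (q : ℕ → Prop) (k : ℕ) (P : ℕ → Prop) : ℕ → ℕ → Prop
  | 0, _ => False
  | j + 1, m => Mon l R q k fun m' => P m' ∧ (m' = m ∨ l m' m) ∧ ¬ Gr l R q k P j m'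

/-- the greedy pieces -/
def Pc (l R : ℕ → ℕ → Prop) (q : ℕ → Prop) (k : ℕ) (P : ℕ → Prop) (j m : ℕ) : Prop :=
  P m ∧ Gr l R q k P (j + 1) m ∧ ¬ Gr l R q k P j m

theorem gr_down (hl : SLO l) {P : ℕ → Prop} (j : ℕ) {m m' : ℕ} (h : l m' m)
    (hm : Gr l R q k P j m) : Gr l R q k P j m' := by
  cases j with
  | zero => exact hm
  | succ j =>
    refine Mon.sub hm ?_
    rintro x ⟨h1, h2, h3⟩
    refine ⟨h1, Or.inr ?_, h3⟩
    rcases h2 with rfl | h2
    · exact h
    · exact hl.tr _ _ _ h2 h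

theorem mon_pc (hl : SLO l) (P : ℕ → Prop) (j : ℕ) : Mon l R q k (Pc l R q k P j) := by
  by_contra hcon
  unfold Mon at hcon
  push Not at hcon
  obtain ⟨⟨m1, m1', h1, h1', h1l, n1, c1, c1'⟩, ⟨m2, m2', h2, h2', h2l, n2, c2, c2'⟩⟩ := hcon
  have key : ∀ z, Pc l R q k P j z → (m1' = z ∨ l m1' z) → (m2' = z ∨ l m2' z) → False := by
    intro z hz e1 e2
    have f : ∀ {x y : ℕ}, l x y → (y = z ∨ l y z) → (x = z ∨ l x z) := by
      intro x y hxy hyz
      refine Or.inr ?_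
      rcases hyz with rfl | hyz
      · exact hxy
      · exact hl.tr _ _ _ hxy hyz
    rcases hz.2.1 with h | h
    · exact c1' (h m1 m1' ⟨h1.1, f h1l e1, h1.2.2⟩ ⟨h1'.1, e1, h1'.2.2⟩ h1l n1 c1)
    · exact c2' (h m2 m2' ⟨h2.1, f h2l e2, h2.2.2⟩ ⟨h2'.1, e2, h2'.2.2⟩ h2l n2 c2)
  rcases hl.tot m1' m2' with h | h | h
  · exact key m1' h1' (Or.inl rfl) (Or.inl h.symm)
  · exact key m2' h2' (Or.inr h) (Or.inl rfl)
  · exact key m1' h1' (Or.inl rfl) (Or.inr h)

/-- If `P` is covered by finitely many convex monotone pieces then it is covered by the greedy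
pieces. -/
theorem pc_cover {P : ℕ → Prop} {s : ℕ} (c : ℕ → ℕ) (hc : ∀ m, c m < s)
    (hm : ∀ m m', P m → P m' → l m m' → c m ≤ c m')
    (hM : ∀ t, Mon l R q k fun m => P m ∧ c m = t) {m : ℕ} (hP : P m) :
    ∃ j, Pc l R q k P j m := by
  classical
  have h1 : ∀ t m, P m → c m < t → Gr l R q k P t m := by
    intro t
    induction t with
    | zero => exact fun m _ h => absurd h (Nat.not_lt_zero _)
    | succ t ih =>
      intro m hP hm1
      refine Mon.sub (hM t) ?_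
      rintro m' ⟨h2, h3, h4⟩
      refine ⟨h2, ?_⟩
      have h5 : ¬ c m' < t := fun h => h4 (ih m' h2 h)
      have h6 : c m' ≤ c m := by
        rcases h3 with rfl | h3
        · exact le_rfl
        · exact hm _ _ h2 hP h3
      omega
  have h2 : ∃ t, Gr l R q k P t m := ⟨s, h1 s m hP (hc m)⟩
  have h3 := Nat.find_spec h2
  have h4 : Nat.find h2 ≠ 0 := by
    intro h4
    rw [h4] at h3
    exact h3
  obtain ⟨j, hj⟩ := Nat.exists_eq_succ_of_ne_zero h4
  refine ⟨j, hP, by rw [hj] at h3; exact h3, fun h5 => ?_⟩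
  have := Nat.find_min' h2 h5
  omega

/-! ### Hulls -/

/-- the two monotone hulls of the `k`-th change on `A` -/
def Hull (l R : ℕ → ℕ → Prop) (q : ℕ → Prop) (k : ℕ) (A : ℕ → Prop) (e m n : ℕ) : Prop :=
  ∃ m', A m' ∧ (m' = m ∨ (e % 2 = 0 ∧ l m m') ∨ (e % 2 ≠ 0 ∧ l m' m)) ∧ Chg l R q k m' n

theorem hull_iff {A : ℕ → Prop} (hA : Mon l R q k A) (hm : A m) :
    (Hull l R q k A 0 m n ∧ Hull l R q k A 1 m n) ↔ Chg l R q k m n := by
  constructor
  · rintro ⟨⟨m1, h1, h2, h3⟩, ⟨m2, h4, h5, h6⟩⟩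
    rcases hA with h | h
    · rcases h5 with rfl | ⟨h5, -⟩ | ⟨-, h5⟩
      · exact h6
      · exact absurd h5 (by norm_num)
      · exact h _ _ h4 hm h5 n h6
    · rcases h2 with rfl | ⟨-, h2⟩ | ⟨h2, -⟩
      · exact h3
      · exact h _ _ hm h1 h2 n h3
      · exact absurd rfl h2
  · intro h
    exact ⟨⟨m, hm, Or.inl rfl, h⟩, ⟨m, hm, Or.inl rfl, h⟩⟩

theorem hull_self {A : ℕ → Prop} (hm : A m) (h : Chg l R q k m n) (e : ℕ) :
    Hull l R q k A e m n := ⟨m, hm, Or.inl rfl, h⟩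

end Pool.Agent.N481.VT
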