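import Pool.Agent.N481.VT.Tower

set_option autoImplicit false

/-!
First-order theories with definable preorders.
-/

namespace Pool.Agent.N481.VT.FO

open Set MeasureTheory FirstOrder FirstOrder.Language
open Pool.Agent.H533R2.VO (RS RIso VC Dich)
open Pool.Agent.H533R2.VS

variable {L : FirstOrder.Language.{0, 0}}

/-- arities -/
def ar : Option (Σ n, L.Relations n) → ℕ
  | none => 0
  | some j => j.1

open Classical in
/-- values -/
noncomputable def evr (S : L.Structure ℕ) :
    (o : Option (Σ n, L.Relations n)) → (Fin (ar o) → ℕ) → Bool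
  | none, _ => false
  | some j, v => decide (@Structure.RelMap L ℕ S j.1 j.2 v)

variable (e : ℕ → Option (Σ n, L.Relations n)) (he : Function.Surjective e)

/-- coding -/
noncomputable def enc (S : L.Structure ℕ) : RS (fun i => ar (e i)) := fun i v => evr S (e i) v

/-- the index of a symbol -/
noncomputable def ix {n : ℕ} (R : L.Relations n) : ℕ := (he (some ⟨n, R⟩)).choose

theorem ix_spec {n : ℕ} (R : L.Relations n) : e (ix e he R) = some ⟨n, R⟩ :=
  (he (some ⟨n, R⟩)).choose_spec

theorem ix_ar {n : ℕ} (R : L.Relations n) : ar (e (ix e he R)) = n := by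
  rw [ix_spec e he R]
  rfl

/-- decoding -/
@[reducible] noncomputable def dec [L.IsRelational] (x : RS (fun i => ar (e i))) :
    L.Structure ℕ where
  funMap := fun {_} f => isEmptyElim f
  RelMap := fun {_} R v => x (ix e he R) (fun j => v (Fin.cast (ix_ar e he R) j)) = true

theorem rel_dec [L.IsRelational] (x : RS (fun i => ar (e i))) {n : ℕ} (R : L.Relations n)
    (v : Fin n → ℕ) : @Structure.RelMap L ℕ (dec e he x) n R v ↔
      x (ix e he R) (fun j => v (Fin.cast (ix_ar e he R) j)) = true := Iff.rfl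

theorem evr_cast (S : L.Structure ℕ) {n : ℕ} (R : L.Relations n)
    (o : Option (Σ n, L.Relations n)) (h : o = some ⟨n, R⟩) (h' : ar o = n) (v : Fin n → ℕ) :
    evr S o (fun j => v (Fin.cast h' j)) = true ↔ @Structure.RelMap L ℕ S n R v := by
  classical
  subst h
  exact decide_eq_true_iff

theorem rel_dec_enc [L.IsRelational] (S : L.Structure ℕ) {n : ℕ} (R : L.Relations n)
    (v : Fin n → ℕ) : @Structure.RelMap L ℕ (dec e he (enc e S)) n R v ↔
      @Structure.RelMap L ℕ S n R v :=
  evr_cast S R _ (ix_spec e he R) (ix_ar e he R) v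

theorem struct_ext [L.IsRelational] {S S' : L.Structure ℕ}
    (h : ∀ (n : ℕ) (R : L.Relations n) (v : Fin n → ℕ),
      @Structure.RelMap L ℕ S n R v ↔ @Structure.RelMap L ℕ S' n R v) : S = S' := by
  cases S with
  | mk f r =>
    cases S' with
    | mk f' r' =>
      have h1 : @f = @f' := by
        funext n g
        exact isEmptyElim g
      have h2 : @r = @r' := by
        funext n R v
        exact propext (h n R v)
      subst h1 h2
      rfl

theorem dec_enc [L.IsRelational] (S : L.Structure ℕ) : dec e he (enc e S) = S :=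
  struct_ext fun _ R v => rel_dec_enc e he S R v

/-- isomorphisms -/
def isoOf [L.IsRelational] {S S' : L.Structure ℕ} (σ : Equiv.Perm ℕ)
    (h : ∀ (n : ℕ) (R : L.Relations n) (v : Fin n → ℕ),
      @Structure.RelMap L ℕ S' n R (⇑σ ∘ v) ↔ @Structure.RelMap L ℕ S n R v) :
    @FirstOrder.Language.Equiv L ℕ ℕ S S' :=
  @FirstOrder.Language.Equiv.mk L ℕ ℕ S S' σ (fun {_} f => isEmptyElim f)
    (fun {n} R v => h n R v)

theorem dec_iso [L.IsRelational] {x y : RS (fun i => ar (e i))} {σ : Equiv.Perm ℕ}
    (h : ∀ i (v : Fin (ar (e i)) → ℕ), y i (⇑σ ∘ v) = x i v) (n : ℕ) (R : L.Relations n)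
    (v : Fin n → ℕ) : @Structure.RelMap L ℕ (dec e he y) n R (⇑σ ∘ v) ↔
      @Structure.RelMap L ℕ (dec e he x) n R v := by
  rw [rel_dec, rel_dec]
  have := h (ix e he R) (fun j => v (Fin.cast (ix_ar e he R) j))
  rw [← this]
  exact Iff.rfl

open Classical in
theorem enc_iso {S S' : L.Structure ℕ} {σ : Equiv.Perm ℕ}
    (h : ∀ (n : ℕ) (R : L.Relations n) (v : Fin n → ℕ),
      @Structure.RelMap L ℕ S' n R (⇑σ ∘ v) ↔ @Structure.RelMap L ℕ S n R v)
    (i : ℕ) (v : Fin (ar (e i)) → ℕ) : enc e S' i (⇑σ ∘ v) = enc e S i v := by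
  show evr S' (e i) (⇑σ ∘ v) = evr S (e i) v
  generalize e i = o at v
  cases o with
  | none => rfl
  | some j =>
    exact decide_eq_decide.2 (h j.1 j.2 v)

section meas

variable {Y : Type} [MeasurableSpace Y]

/-- satisfaction is measurable -/
theorem meas_realize [L.IsRelational] {f : Y → L.Structure ℕ}
    (hf : ∀ (n : ℕ) (R : L.Relations n) (v : Fin n → ℕ),
      MeasurableSet {y | @Structure.RelMap L ℕ (f y) n R v}) {β : Type} {n : ℕ}
    (φ : L.BoundedFormula β n) (c : β → ℕ) (d : Fin n → ℕ) :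
    MeasurableSet {y | @BoundedFormula.Realize L ℕ (f y) _ _ φ c d} := by
  have ht : ∀ {n : ℕ} (c : β → ℕ) (d : Fin n → ℕ) (t : L.Term (β ⊕ Fin n)), ∃ a : ℕ, ∀ y : Y,
      @Term.realize L ℕ (f y) _ (Sum.elim c d) t = a := by
    intro n c d t
    cases t with
    | var i => exact ⟨Sum.elim c d i, fun y => rfl⟩
    | func g _ => exact isEmptyElim g
  induction φ with
  | falsum =>
    have e1 : {y : Y | @BoundedFormula.Realize L ℕ (f y) _ _ BoundedFormula.falsum c d} = ∅ := rfl
    rw [e1]
    exact MeasurableSet.empty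
  | @equal n t1 t2 =>
    obtain ⟨a, ha⟩ := ht c d t1
    obtain ⟨b, hb⟩ := ht c d t2
    have e1 : {y : Y | @BoundedFormula.Realize L ℕ (f y) _ _ (BoundedFormula.equal t1 t2) c d} =
        {_y : Y | a = b} := by
      ext y
      show @Term.realize L ℕ (f y) _ (Sum.elim c d) t1 =
        @Term.realize L ℕ (f y) _ (Sum.elim c d) t2 ↔ _
      rw [ha, hb]
      exact Iff.rfl
    rw [e1]
    exact MeasurableSet.const _
  | @rel n l R ts =>
    choose a ha using fun i => ht c d (ts i)
    have e1 : {y : Y | @BoundedFormula.Realize L ℕ (f y) _ _ (BoundedFormula.rel R ts) c d} =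
        {y | @Structure.RelMap L ℕ (f y) l R a} := by
      ext y
      show @Structure.RelMap L ℕ (f y) l R
        (fun i => @Term.realize L ℕ (f y) _ (Sum.elim c d) (ts i)) ↔ _
      have e2 : (fun i => @Term.realize L ℕ (f y) _ (Sum.elim c d) (ts i)) = a :=
        funext fun i => ha i y
      rw [e2]
      exact Iff.rfl
    rw [e1]
    exact hf l R a
  | @imp n f1 f2 h1 h2 =>
    have e1 : {y : Y | @BoundedFormula.Realize L ℕ (f y) _ _ (f1.imp f2) c d} =
        {y | @BoundedFormula.Realize L ℕ (f y) _ _ f1 c d}ᶜ ∪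
          {y | @BoundedFormula.Realize L ℕ (f y) _ _ f2 c d} := by
      ext y
      show (_ → _) ↔ (¬ _) ∨ _
      exact imp_iff_not_or
    rw [e1]
    exact (h1 d).compl.union (h2 d)
  | @all n g h =>
    have e1 : {y : Y | @BoundedFormula.Realize L ℕ (f y) _ _ g.all c d} =
        ⋂ k : ℕ, {y | @BoundedFormula.Realize L ℕ (f y) _ _ g c (Fin.snoc d k)} := by
      ext y
      rw [mem_iInter]
      exact Iff.rfl
    rw [e1]
    exact MeasurableSet.iInter fun k => h (Fin.snoc d k)

end meas

theorem clopen_rel [L.IsRelational] {n : ℕ} (R : L.Relations n) (v : Fin n → ℕ) :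
    IsClopen {x : RS (fun i => ar (e i)) | @Structure.RelMap L ℕ (dec e he x) n R v} := by
  have h1 : Continuous fun x : RS (fun i => ar (e i)) =>
      x (ix e he R) (fun j => v (Fin.cast (ix_ar e he R) j)) :=
    (continuous_apply _).comp (continuous_apply (ix e he R))
  exact (isClopen_discrete {true}).preimage h1

theorem meas_rel [L.IsRelational] {n : ℕ} (R : L.Relations n) (v : Fin n → ℕ) :
    MeasurableSet {x : RS (fun i => ar (e i)) | @Structure.RelMap L ℕ (dec e he x) n R v} :=
  (clopen_rel e he R v).isOpen.measurableSet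

/-- the codes of the models -/
def BT [L.IsRelational] (T : L.Theory) : Set (RS (fun i => ar (e i))) :=
  {x | enc e (dec e he x) = x ∧ @Theory.Model L ℕ (dec e he x) T}

theorem meas_BT [L.IsRelational] (hc : Countable (Σ n, L.Relations n)) (T : L.Theory) :
    MeasurableSet (BT e he T) := by
  classical
  have h1 : MeasurableSet {x : RS (fun i => ar (e i)) | enc e (dec e he x) = x} := by
    have e1 : {x : RS (fun i => ar (e i)) | enc e (dec e he x) = x} =
        ⋂ i : ℕ, ⋂ v : Fin (ar (e i)) → ℕ, {x | evr (dec e he x) (e i) v = x i v} := by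
      ext x
      simp only [mem_iInter]
      constructor
      · intro h i v
        exact congrFun (congrFun h i) v
      · intro h
        funext i v
        exact h i v
    rw [e1]
    refine MeasurableSet.iInter fun i => MeasurableSet.iInter fun v => ?_
    have h2 : MeasurableSet {x : RS (fun i => ar (e i)) | x i v = true} := by
      have h3 : Continuous fun x : RS (fun i => ar (e i)) => x i v :=
        (continuous_apply v).comp (continuous_apply i)
      exact ((isClopen_discrete {true}).preimage h3).isOpen.measurableSet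
    have h3 : ∀ (o : Option (Σ n, L.Relations n)) (v : Fin (ar o) → ℕ),
        MeasurableSet {x : RS (fun i => ar (e i)) | evr (dec e he x) o v = true} := by
      intro o v
      cases o with
      | none =>
        have e2 : {x : RS (fun i => ar (e i)) | evr (dec e he x) none v = true} = ∅ := by
          ext x
          simp [evr]
        rw [e2]
        exact MeasurableSet.empty
      | some j =>
        have e2 : {x : RS (fun i => ar (e i)) | evr (dec e he x) (some j) v = true} =
            {x | @Structure.RelMap L ℕ (dec e he x) j.1 j.2 v} := by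
          ext x
          exact decide_eq_true_iff
        rw [e2]
        exact meas_rel e he j.2 v
    have e3 : {x : RS (fun i => ar (e i)) | evr (dec e he x) (e i) v = x i v} =
        ({x | evr (dec e he x) (e i) v = true} ∩ {x | x i v = true}) ∪
        ({x | evr (dec e he x) (e i) v = true}ᶜ ∩ {x | x i v = true}ᶜ) := by
      ext x
      simp only [mem_ofPred_eq, mem_union, mem_inter_iff, mem_compl_iff]
      cases evr (dec e he x) (e i) v <;> cases x i v <;> simp
    rw [e3]
    exact ((h3 _ v).inter h2).union ((h3 _ v).compl.inter h2.compl)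
  have hcs : Countable L.Sentence := by
    have hf : Countable (Σ n, L.Functions n) := by
      have : ∀ n, IsEmpty (L.Functions n) := fun n => inferInstance
      infer_instance
    have h2 : Countable L.Symbols :=
      inferInstanceAs (Countable ((Σ n, L.Functions n) ⊕ Σ n, L.Relations n))
    have h3 : Cardinal.mk (Σ n, L.BoundedFormula Empty n) ≤ Cardinal.aleph0 := by
      refine BoundedFormula.card_le.trans ?_
      refine max_le le_rfl ?_
      rw [Cardinal.mk_eq_zero Empty]
      simp only [zero_add, Cardinal.lift_id]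
      exact Cardinal.mk_le_aleph0
    have h4 : Countable (Σ n, L.BoundedFormula Empty n) := Cardinal.mk_le_aleph0_iff.1 h3
    exact (sigma_mk_injective (β := fun n => L.BoundedFormula Empty n) (i := 0)).countable
  have h2 : MeasurableSet {x : RS (fun i => ar (e i)) |
      @Theory.Model L ℕ (dec e he x) T} := by
    have e1 : {x : RS (fun i => ar (e i)) | @Theory.Model L ℕ (dec e he x) T} =
        ⋂ φ : T, {x | @Sentence.Realize L ℕ (dec e he x) φ} := by
      ext x
      rw [mem_iInter]
      constructor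
      · intro h φ
        exact @Theory.realize_sentence_of_mem L ℕ (dec e he x) T h φ φ.2
      · intro h
        exact @Theory.Model.mk L ℕ (dec e he x) T fun φ hφ => h ⟨φ, hφ⟩
    rw [e1]
    have : Countable T := Subtype.countable
    exact MeasurableSet.iInter fun φ => meas_realize (fun n R v => meas_rel e he R v) _ _ _
  exact h1.inter h2

theorem inv_BT [L.IsRelational] (T : L.Theory) (x y : RS (fun i => ar (e i))) (h : RIso x y) :
    x ∈ BT e he T ↔ y ∈ BT e he T := by
  have key : ∀ x y : RS (fun i => ar (e i)), RIso x y → x ∈ BT e he T → y ∈ BT e he T := by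
    rintro x y ⟨σ, h⟩ ⟨h1, h2⟩
    refine ⟨?_, ?_⟩
    · funext i v
      have h3 := enc_iso e (dec_iso e he h) i (⇑σ.symm ∘ v)
      have h4 := h i (⇑σ.symm ∘ v)
      have e1 : ⇑σ ∘ ⇑σ.symm ∘ v = v := by
        funext j
        simp
      rw [e1] at h3 h4
      rw [h3, h4, h1]
    · exact @StrongHomClass.theory_model L ℕ ℕ (dec e he x) (dec e he y) T _ _ _
        (isoOf σ (dec_iso e he h)) h2
  refine ⟨key x y h, key y x ?_⟩
  obtain ⟨σ, h⟩ := h
  refine ⟨σ.symm, fun i v => ?_⟩
  rw [← h]
  congr 1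
  funext j
  simp

/-! ### The theorem -/

/-- the preorder defined by a formula -/
def FD [L.IsRelational] (F : ℕ → Σ n, L.Formula (Fin n ⊕ Fin 2)) (k : ℕ) (p : List ℕ)
    (x : RS (fun i => ar (e i))) (u v : ℕ) : Prop :=
  ∃ h : p.length = (F k).1, @Formula.Realize L ℕ (dec e he x) _ (F k).2
    (Sum.elim (fun i => p.get (Fin.cast h.symm i)) ![u, v])

theorem act_rel {a : ℕ → ℕ} (σ : Equiv.Perm ℕ) (x : RS a) (i : ℕ) (v : Fin (a i) → ℕ) :
    act σ x i (⇑σ ∘ v) = x i v := by
  unfold act
  congr 1
  funext j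
  simp

theorem fam_FD [L.IsRelational] (F : ℕ → Σ n, L.Formula (Fin n ⊕ Fin 2)) :
    Fam (FD e he F) := by
  refine ⟨fun k p m n => ?_, fun k p x σ m n => ?_⟩
  · by_cases h : p.length = (F k).1
    · have e1 : {x : RS (fun i => ar (e i)) | FD e he F k p x m n} =
          {x | @Formula.Realize L ℕ (dec e he x) _ (F k).2
            (Sum.elim (fun i => p.get (Fin.cast h.symm i)) ![m, n])} := by
        ext x
        exact ⟨fun ⟨_, h1⟩ => h1, fun h1 => ⟨h, h1⟩⟩
      rw [e1]
      exact meas_realize (fun n R v => meas_rel e he R v) _ _ _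
    · have e1 : {x : RS (fun i => ar (e i)) | FD e he F k p x m n} = ∅ := by
        ext x
        exact ⟨fun ⟨h1, _⟩ => absurd h1 h, fun h1 => absurd h1 (notMem_empty _)⟩
      rw [e1]
      exact MeasurableSet.empty
  · have h1 := dec_iso e he (fun i v => act_rel σ x i v)
    have h2 : ∀ c : Fin (F k).1 ⊕ Fin 2 → ℕ,
        @Formula.Realize L ℕ (dec e he x) _ (F k).2 c ↔
          @Formula.Realize L ℕ (dec e he (act σ x)) _ (F k).2 (fun i => σ (c i)) := fun c =>
      (@StrongHomClass.realize_formula L ℕ ℕ (dec e he x) (dec e he (act σ x)) _ _ _ _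
        (isoOf σ h1) (F k).2 c).symm
    unfold FD
    constructor
    · rintro ⟨h, h3⟩
      have h' : p.length = (F k).1 := by rw [← h, List.length_map]
      refine ⟨h', (h2 _).2 ?_⟩
      convert h3 using 2
      rename_i i
      rcases i with i | i
      · simp
      · fin_cases i <;> rfl
    · rintro ⟨h', h3⟩
      have h : (p.map σ).length = (F k).1 := by rw [← h', List.length_map]
      refine ⟨h, ?_⟩
      have h4 := (h2 _).1 h3
      convert h4 using 2
      rename_i i
      rcases i with i | i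
      · simp
      · fin_cases i <;> rfl

/-- The automorphisms of a segment. -/
def SGL (S : L.Structure ℕ) (D : ℕ → ℕ → Prop) (m : ℕ) : Set (Equiv.Perm {n // D n m}) :=
  {σ | (∀ (n : ℕ) (R : L.Relations n) (v : Fin n → {n // D n m}),
      @Structure.RelMap L ℕ S n R (fun k => (σ (v k) : ℕ)) ↔
        @Structure.RelMap L ℕ S n R fun k => (v k : ℕ)) ∧
    ∀ u v, D (σ u) (σ v) ↔ D u v}

theorem fd_key (S : L.Structure ℕ) (k : ℕ) (φ : L.Formula (Fin k ⊕ Fin 2)) (p : Fin k → ℕ)
    (u v : ℕ) (q : Σ n, L.Formula (Fin n ⊕ Fin 2)) (hq : q = ⟨k, φ⟩) :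
    (∃ h : (List.ofFn p).length = q.1, @Formula.Realize L ℕ S _ q.2
      (Sum.elim (fun i => (List.ofFn p).get (Fin.cast h.symm i)) ![u, v])) ↔
    @Formula.Realize L ℕ S _ φ (Sum.elim p ![u, v]) := by
  subst hq
  have key : ∀ h : (List.ofFn p).length = k,
      (Sum.elim (fun i => (List.ofFn p).get (Fin.cast h.symm i)) ![u, v] : Fin k ⊕ Fin 2 → ℕ) =
        Sum.elim p ![u, v] := by
    intro h
    funext i
    rcases i with i | i
    · simp
    · rfl
  constructor
  · rintro ⟨h, h3⟩
    simp only at h3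
    rw [key h] at h3
    exact h3
  · intro h3
    refine ⟨by simp, ?_⟩
    simp only
    rw [key (by simp)]
    exact h3

theorem dichotomy [L.IsRelational] (hc : Countable (Σ n, L.Relations n)) (T : L.Theory)
    (hT : ∀ S : L.Structure ℕ, @Theory.Model L ℕ S T →
      ∃ (k : ℕ) (φ : L.Formula (Fin k ⊕ Fin 2)) (p : Fin k → ℕ) (D : ℕ → ℕ → Prop),
        (∀ u v, D u v ↔ @Formula.Realize L ℕ S _ φ (Sum.elim p ![u, v])) ∧ TP D ∧
          ∀ m, (SGL S D m).Countable) :
    (∃ g : ℕ → L.Structure ℕ, ∀ S : L.Structure ℕ, @Theory.Model L ℕ S T →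
        ∃ n : ℕ, Nonempty (@FirstOrder.Language.Equiv L ℕ ℕ S (g n))) ∨
    (∃ f : (ℕ → Bool) → L.Structure ℕ, (∀ x : ℕ → Bool, @Theory.Model L ℕ (f x) T) ∧
      (∀ x y : ℕ → Bool, Nonempty (@FirstOrder.Language.Equiv L ℕ ℕ (f x) (f y)) → x = y) ∧
      (∀ (n : ℕ) (R : L.Relations n) (a : Fin n → ℕ),
        IsClopen {x : ℕ → Bool | @Structure.RelMap L ℕ (f x) n R a})) := by
  classical
  have hne : Nonempty (Option (Σ n, L.Relations n)) := ⟨none⟩
  obtain ⟨e, he⟩ := exists_surjective_nat (Option (Σ n, L.Relations n))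
  have hFc : Countable (Σ n, L.Formula (Fin n ⊕ Fin 2)) := by
    have hf : Countable (Σ n, L.Functions n) := by
      have : ∀ n, IsEmpty (L.Functions n) := fun n => inferInstance
      infer_instance
    have h2 : Countable L.Symbols :=
      inferInstanceAs (Countable ((Σ n, L.Functions n) ⊕ Σ n, L.Relations n))
    have h3 : ∀ n, Countable (L.Formula (Fin n ⊕ Fin 2)) := by
      intro n
      have h3 : Cardinal.mk (Σ k, L.BoundedFormula (Fin n ⊕ Fin 2) k) ≤ Cardinal.aleph0 := by
        refine BoundedFormula.card_le.trans ?_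
        refine max_le le_rfl ?_
        rw [Cardinal.lift_id, Cardinal.lift_id]
        refine Cardinal.add_le_aleph0.2 ⟨Cardinal.mk_le_aleph0, Cardinal.mk_le_aleph0⟩
      have h4 : Countable (Σ k, L.BoundedFormula (Fin n ⊕ Fin 2) k) :=
        Cardinal.mk_le_aleph0_iff.1 h3
      exact (sigma_mk_injective (β := fun k => L.BoundedFormula (Fin n ⊕ Fin 2) k)
        (i := 0)).countable
    infer_instance
  have hFn : Nonempty (Σ n, L.Formula (Fin n ⊕ Fin 2)) := ⟨⟨0, ⊥⟩⟩
  obtain ⟨F, hF⟩ := exists_surjective_nat (Σ n, L.Formula (Fin n ⊕ Fin 2))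
  have hVC := vs_plain _ _ (wt_all (fam_FD e he F)).1
  have hw : ∀ x ∈ BT e he T, WT (FD e he F) x := by
    rintro x ⟨h1, h2⟩
    obtain ⟨k, φ, p, D, hD, hTP, hSG⟩ := hT _ h2
    obtain ⟨j, hj⟩ := hF ⟨k, φ⟩
    have hDD : FD e he F j (List.ofFn p) x = D := by
      funext u v
      apply propext
      rw [hD]
      exact fd_key _ k φ p u v _ hj
    refine ⟨j, List.ofFn p, ?_⟩
    rw [hDD]
    refine ⟨hTP, fun m => (hSG m).mono ?_⟩
    rintro σ ⟨h3, h4⟩
    refine ⟨fun n R v => ?_, h4⟩
    have h5 := h3 (ix e he R) (fun j => v (Fin.cast (ix_ar e he R) j))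
    rw [Bool.eq_iff_iff] at h5
    exact h5
  rcases hVC (BT e he T) (meas_BT e he hc T) (inv_BT e he T) hw with ⟨f, hf⟩ | ⟨g, hg, hgB, hgi⟩
  · left
    refine ⟨fun n => dec e he (f n), fun S hS => ?_⟩
    have h1 : enc e S ∈ BT e he T := by
      refine ⟨by rw [dec_enc], ?_⟩
      rw [dec_enc]
      exact hS
    obtain ⟨n, σ, hσ⟩ := hf _ h1
    refine ⟨n, ⟨?_⟩⟩
    have h2 := isoOf σ (dec_iso e he hσ)
    rw [dec_enc] at h2
    exact @FirstOrder.Language.Equiv.symm L ℕ ℕ (dec e he (f n)) S h2
  · right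
    refine ⟨fun c => dec e he (g c), fun c => (hgB c).2, fun c d h => ?_, fun n R v => ?_⟩
    · obtain ⟨τ⟩ := h
      refine hgi c d ⟨@FirstOrder.Language.Equiv.toEquiv L ℕ ℕ (dec e he (g c)) (dec e he (g d)) τ,
        fun i v => ?_⟩
      have h1 := enc_iso e (S := dec e he (g c)) (S' := dec e he (g d))
        (σ := @FirstOrder.Language.Equiv.toEquiv L ℕ ℕ (dec e he (g c)) (dec e he (g d)) τ)
        (fun n R v => @FirstOrder.Language.Equiv.map_rel' L ℕ ℕ (dec e he (g c))
          (dec e he (g d)) τ n R v) i v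
      rw [(hgB c).1, (hgB d).1] at h1
      exact h1
    · exact (clopen_rel e he R v).preimage hg

end Pool.Agent.N481.VT.FO
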