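import Pool.Agent.N481.VT.Chg
import Pool.Agent.Y558.MC.Vcm
import Pool.Agent.Y558.MB.Tw
import Pool.Agent.TH425.FF.Cun

set_option autoImplicit false

/-!
Structures with a definable linear order and piecewise monotone relations.
-/

namespace Pool.Agent.N481.VT.PM

open Set MeasureTheory
open Pool.Agent.H533R2.VO (RS RIso VC Dich)
open Pool.Agent.H533R2.VS
open Pool.Agent.H566P (ar R2 v2 lt ac co mk)
open Pool.Agent.Y560.TG (lt_mk ac_mk co_mk R2_ext riso_iff meas_into cont_into)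
open Pool.Agent.Y558.MB (mset_lt mset_ac mset_co IsI isI_act isI_iff)
open Pool.Agent.Y558.MC (MAr vcu_MAr coan_MAr inv_MAr)
open Pool.Agent.TH425.FF (PCanon PExp)

variable {a : ℕ → ℕ}

/-- definable relations, with parameters -/
structure DefB (D : List ℕ → RS a → ℕ → ℕ → Prop) : Prop where
  meas : ∀ p m n, MeasurableSet {x | D p x m n}
  equi : ∀ p x (σ : Equiv.Perm ℕ) m n, D (p.map σ) (act σ x) (σ m) (σ n) ↔ D p x m n

/-- definable sets, with parameters -/
structure FamU (Q : ℕ → List ℕ → RS a → ℕ → Prop) : Prop where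
  meas : ∀ k p m, MeasurableSet {x | Q k p x m}
  equi : ∀ k p x (σ : Equiv.Perm ℕ) m, Q k (p.map σ) (act σ x) (σ m) ↔ Q k p x m

/-- points for which the relation is good for the target `q` -/
def Good (l R : ℕ → ℕ → Prop) (Q : ℕ → ℕ → Prop) (q m : ℕ) : Prop :=
  FinC l R (Q q) m ∧ ∀ k, ∃ r, Q r m ∧ Mon l R (Q q) k (Q r)

def ii (j : ℕ) : ℕ := j.unpair.1
def iq (j : ℕ) : ℕ := j.unpair.2.unpair.1
def ik (j : ℕ) : ℕ := j.unpair.2.unpair.2.unpair.1
def ir (j : ℕ) : ℕ := j.unpair.2.unpair.2.unpair.2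
def ix (i q k r : ℕ) : ℕ := Nat.pair i (Nat.pair q (Nat.pair k r))

theorem ii_ix (i q k r : ℕ) : ii (ix i q k r) = i := by
  show (Nat.pair i (Nat.pair q (Nat.pair k r))).unpair.1 = i
  rw [Nat.unpair_pair]
theorem iq_ix (i q k r : ℕ) : iq (ix i q k r) = q := by
  show (Nat.pair i (Nat.pair q (Nat.pair k r))).unpair.2.unpair.1 = q
  rw [Nat.unpair_pair]
  show (Nat.pair q (Nat.pair k r)).unpair.1 = q
  rw [Nat.unpair_pair]
theorem ik_ix (i q k r : ℕ) : ik (ix i q k r) = k := by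
  show (Nat.pair i (Nat.pair q (Nat.pair k r))).unpair.2.unpair.2.unpair.1 = k
  rw [Nat.unpair_pair]
  show (Nat.pair q (Nat.pair k r)).unpair.2.unpair.1 = k
  rw [Nat.unpair_pair]
  show (Nat.pair k r).unpair.1 = k
  rw [Nat.unpair_pair]
theorem ir_ix (i q k r : ℕ) : ir (ix i q k r) = r := by
  show (Nat.pair i (Nat.pair q (Nat.pair k r))).unpair.2.unpair.2.unpair.2 = r
  rw [Nat.unpair_pair]
  show (Nat.pair q (Nat.pair k r)).unpair.2.unpair.2 = r
  rw [Nat.unpair_pair]
  show (Nat.pair k r).unpair.2 = r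
  rw [Nat.unpair_pair]

/-- an enumeration of the finite sets -/
noncomputable def fs : ℕ → Finset ℕ := (exists_surjective_nat (Finset ℕ)).choose

theorem fs_surj : Function.Surjective fs := (exists_surjective_nat (Finset ℕ)).choose_spec

/-- The relation number `i` of `x` is determined by the relations `D j`, `j ∈ J`. -/
def Det (D : ℕ → ℕ → ℕ → Prop) (x : RS a) (i : ℕ) (J : Finset ℕ) : Prop :=
  ∀ v w : Fin (a i) → ℕ, (∀ j ∈ J, ∀ s t, D j (v s) (v t) ↔ D j (w s) (w t)) →
    x i v = true → x i w = true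

/-- the relation `R` is good everywhere -/
def PMr (l R : ℕ → ℕ → Prop) (Q : ℕ → ℕ → Prop) : Prop := ∀ m n, ∃ q, Q q n ∧ Good l R Q q m

/-- the pattern `C` for the relations in `J` implies the relation number `i` -/
def Pat (l : ℕ → ℕ → Prop) (Q : ℕ → ℕ → Prop) (D : ℕ → ℕ → ℕ → Prop) (x : RS a) (i : ℕ)
    (J C : Finset ℕ) : Prop :=
  (∀ j, j ∈ J → PMr l (D j) Q) ∧ ∀ v : Fin (a i) → ℕ,
    (∀ j, j ∈ J → ∀ s t : Fin (a i), D j (v s) (v t) ↔ Nat.pair j (Nat.pair s t) ∈ C) →
      x i v = true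

/-- the coloured predicates of the code -/
def cop (l : ℕ → ℕ → Prop) (Q : ℕ → ℕ → Prop) (D : ℕ → ℕ → ℕ → Prop) (x : RS a) (j m : ℕ) :
    Prop :=
  if j % 4 = 0 then Q (j / 4) m else
  if j % 4 = 1 then Ini l (D (j / 4).unpair.1) (Q (j / 4).unpair.2) m else
  if j % 4 = 2 then Good l (D (j / 4).unpair.1) Q (j / 4).unpair.2 m else
  Pat l Q D x (j / 4).unpair.1 (fs (j / 4).unpair.2.unpair.1) (fs (j / 4).unpair.2.unpair.2)

/-- coding -/
noncomputable def cc (l : ℕ → ℕ → Prop) (Q : ℕ → ℕ → Prop) (D : ℕ → ℕ → ℕ → Prop) (x : RS a) : R2 :=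
  mk l (fun j m n => Hull l (D (ii (j / 2))) (Q (iq (j / 2))) (ik (j / 2)) (Q (ir (j / 2))) j m n)
    (cop l Q D x)

/-- the `k`-th change from the code -/
def dch (z : R2) (i q k m n : ℕ) : Prop := ∀ r, co z (4 * r) m →
  ac z (2 * ix i q k r) m n ∧ ac z (2 * ix i q k r + 1) m n

/-- the binary relations from the code -/
def drl (z : R2) (i m n : ℕ) : Prop := ∃ q, co z (4 * q) n ∧ co z (4 * Nat.pair i q + 2) m ∧
  ∃ k, dch z i q k m n ∧ ¬ dch z i q (k + 1) m n ∧ (co z (4 * Nat.pair i q + 1) m ↔ Even k)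

/-- decoding -/
def dcp (z : R2) (i : ℕ) (v : Fin (a i) → ℕ) : Prop :=
  ∃ J C u, co z (4 * Nat.pair i (Nat.pair J C) + 3) u ∧
    ∀ j, j ∈ fs J → ∀ s t : Fin (a i), drl z j (v s) (v t) ↔ Nat.pair j (Nat.pair s t) ∈ fs C

open Classical in
noncomputable def dd (z : R2) : RS a := fun i v => decide (dcp z i v)

/-! ### Equivariance -/

section equi

variable {σ : Equiv.Perm ℕ} {l l' R R' : ℕ → ℕ → Prop} {q q' A A' : ℕ → Prop}

theorem alt_equi (hl : ∀ m n, l' (σ m) (σ n) ↔ l m n) (hR : ∀ m n, R' (σ m) (σ n) ↔ R m n)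
    (hq : ∀ m, q' (σ m) ↔ q m) : ∀ k m u, Alt l' R' q' k (σ m) (σ u) ↔ Alt l R q k m u := by
  intro k
  induction k with
  | zero => exact fun m u => hq u
  | succ k ih =>
    intro m u
    unfold Alt
    rw [σ.surjective.exists]
    simp only [hq, ih, hl, hR]

theorem chg_equi (hl : ∀ m n, l' (σ m) (σ n) ↔ l m n) (hR : ∀ m n, R' (σ m) (σ n) ↔ R m n)
    (hq : ∀ m, q' (σ m) ↔ q m) (k m n : ℕ) : Chg l' R' q' k (σ m) (σ n) ↔ Chg l R q k m n := by
  unfold Chg
  rw [σ.surjective.exists]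
  simp only [alt_equi hl hR hq, hl, σ.injective.eq_iff]

theorem mon_equi (hl : ∀ m n, l' (σ m) (σ n) ↔ l m n) (hR : ∀ m n, R' (σ m) (σ n) ↔ R m n)
    (hq : ∀ m, q' (σ m) ↔ q m) (hA : ∀ m, A' (σ m) ↔ A m) (k : ℕ) :
    Mon l' R' q' k A' ↔ Mon l R q k A := by
  unfold Mon
  have e1 : (∀ m m', A' m → A' m' → l' m m' → ∀ n, Chg l' R' q' k m n → Chg l' R' q' k m' n) ↔
      (∀ m m', A' (σ m) → A' (σ m') → l' (σ m) (σ m') → ∀ n, Chg l' R' q' k (σ m) n →
        Chg l' R' q' k (σ m') n) := σ.surjective.forall₂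
  have e2 : (∀ m m', A' m → A' m' → l' m m' → ∀ n, Chg l' R' q' k m' n → Chg l' R' q' k m n) ↔
      (∀ m m', A' (σ m) → A' (σ m') → l' (σ m) (σ m') → ∀ n, Chg l' R' q' k (σ m') n →
        Chg l' R' q' k (σ m) n) := σ.surjective.forall₂
  have e : ∀ (m m' : ℕ), (∀ n, Chg l' R' q' k (σ m) n → Chg l' R' q' k (σ m') n) ↔
      ∀ n, Chg l R q k m n → Chg l R q k m' n := by
    intro m m'
    rw [σ.surjective.forall]
    simp only [chg_equi hl hR hq]
  rw [e1, e2]
  simp only [hA, hl, e]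

theorem fin_equi (hl : ∀ m n, l' (σ m) (σ n) ↔ l m n) (hR : ∀ m n, R' (σ m) (σ n) ↔ R m n)
    (hq : ∀ m, q' (σ m) ↔ q m) (m : ℕ) : FinC l' R' q' (σ m) ↔ FinC l R q m := by
  unfold FinC
  refine exists_congr fun k => ?_
  rw [σ.surjective.forall]
  simp only [chg_equi hl hR hq]

theorem ini_equi (hl : ∀ m n, l' (σ m) (σ n) ↔ l m n) (hR : ∀ m n, R' (σ m) (σ n) ↔ R m n)
    (hq : ∀ m, q' (σ m) ↔ q m) (m : ℕ) : Ini l' R' q' (σ m) ↔ Ini l R q m := by
  unfold Ini
  rw [σ.surjective.exists]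
  refine exists_congr fun u => ?_
  rw [hq, σ.surjective.forall]
  simp only [hq, hl, hR, σ.injective.eq_iff]

theorem good_equi {Q Q' : ℕ → ℕ → Prop} (hl : ∀ m n, l' (σ m) (σ n) ↔ l m n)
    (hR : ∀ m n, R' (σ m) (σ n) ↔ R m n) (hQ : ∀ r m, Q' r (σ m) ↔ Q r m) (q m : ℕ) :
    Good l' R' Q' q (σ m) ↔ Good l R Q q m := by
  unfold Good
  simp only [fin_equi hl hR (hQ q), hQ, fun k r => mon_equi hl hR (hQ q) (hQ r) k]

theorem pmr_equi {Q Q' : ℕ → ℕ → Prop} (hl : ∀ m n, l' (σ m) (σ n) ↔ l m n)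
    (hR : ∀ m n, R' (σ m) (σ n) ↔ R m n) (hQ : ∀ r m, Q' r (σ m) ↔ Q r m) :
    PMr l' R' Q' ↔ PMr l R Q := by
  unfold PMr
  rw [σ.surjective.forall₂]
  simp only [hQ, good_equi hl hR hQ]

theorem pat_equi {Q Q' : ℕ → ℕ → Prop} {D D' : ℕ → ℕ → ℕ → Prop}
    (hl : ∀ m n, l' (σ m) (σ n) ↔ l m n) (hD : ∀ j m n, D' j (σ m) (σ n) ↔ D j m n)
    (hQ : ∀ r m, Q' r (σ m) ↔ Q r m) (x : RS a) (i : ℕ) (J C : Finset ℕ) :
    Pat l' Q' D' (act σ x) i J C ↔ Pat l Q D x i J C := by
  unfold Pat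
  have e : (∀ v : Fin (a i) → ℕ, (∀ j, j ∈ J → ∀ s t : Fin (a i),
      D' j (v s) (v t) ↔ Nat.pair j (Nat.pair s t) ∈ C) → act σ x i v = true) ↔
      ∀ v : Fin (a i) → ℕ, (∀ j, j ∈ J → ∀ s t : Fin (a i),
        D j (v s) (v t) ↔ Nat.pair j (Nat.pair s t) ∈ C) → x i v = true := by
    constructor
    · intro h v hv
      have h1 := h (⇑σ ∘ v) (fun j hj s t => by
        rw [← hv j hj s t]
        exact hD j _ _)
      unfold act at h1
      have e : (⇑σ.symm ∘ ⇑σ ∘ v) = v := by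
        funext j
        simp
      rw [e] at h1
      exact h1
    · intro h v hv
      refine h (⇑σ.symm ∘ v) fun j hj s t => ?_
      rw [← hv j hj s t, ← hD]
      simp
  rw [e]
  simp only [fun j => pmr_equi hl (hD j) hQ]

theorem hull_equi (hl : ∀ m n, l' (σ m) (σ n) ↔ l m n) (hR : ∀ m n, R' (σ m) (σ n) ↔ R m n)
    (hq : ∀ m, q' (σ m) ↔ q m) (hA : ∀ m, A' (σ m) ↔ A m) (k e m n : ℕ) :
    Hull l' R' q' k A' e (σ m) (σ n) ↔ Hull l R q k A e m n := by
  unfold Hull
  rw [σ.surjective.exists]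
  simp only [hA, hl, chg_equi hl hR hq, σ.injective.eq_iff]

theorem gr_equi (hl : ∀ m n, l' (σ m) (σ n) ↔ l m n) (hR : ∀ m n, R' (σ m) (σ n) ↔ R m n)
    (hq : ∀ m, q' (σ m) ↔ q m) (hA : ∀ m, A' (σ m) ↔ A m) (k : ℕ) :
    ∀ j m, Gr l' R' q' k A' j (σ m) ↔ Gr l R q k A j m := by
  intro j
  induction j with
  | zero => exact fun m => Iff.rfl
  | succ j ih =>
    intro m
    refine mon_equi hl hR hq (fun m' => ?_) k
    rw [hA, hl, ih, σ.injective.eq_iff]

theorem pc_equi (hl : ∀ m n, l' (σ m) (σ n) ↔ l m n) (hR : ∀ m n, R' (σ m) (σ n) ↔ R m n)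
    (hq : ∀ m, q' (σ m) ↔ q m) (hA : ∀ m, A' (σ m) ↔ A m) (k j m : ℕ) :
    Pc l' R' q' k A' j (σ m) ↔ Pc l R q k A j m := by
  unfold Pc
  rw [hA, gr_equi hl hR hq hA, gr_equi hl hR hq hA]

end equi

/-! ### Measurability -/

section meas

variable {Y : Type} [MeasurableSpace Y] {l R : Y → ℕ → ℕ → Prop} {q A : Y → ℕ → Prop}

theorem m_alt (hl : ∀ m n, Measurable fun y => l y m n) (hR : ∀ m n, Measurable fun y => R y m n)
    (hq : ∀ m, Measurable fun y => q y m) :
    ∀ k m u, Measurable fun y => Alt (l y) (R y) (q y) k m u := by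
  intro k
  induction k with
  | zero => exact fun m u => hq u
  | succ k ih =>
    intro m u
    unfold Alt
    exact (hq u).and (Measurable.exists fun v => (ih m v).and ((hl v u).and
      ((hR m v).iff (hR m u).not)))

theorem m_chg (hl : ∀ m n, Measurable fun y => l y m n) (hR : ∀ m n, Measurable fun y => R y m n)
    (hq : ∀ m, Measurable fun y => q y m) (k m n : ℕ) :
    Measurable fun y => Chg (l y) (R y) (q y) k m n := by
  unfold Chg
  exact Measurable.exists fun u => (m_alt hl hR hq k m u).and (measurable_const.or (hl u n))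

theorem m_mon (hl : ∀ m n, Measurable fun y => l y m n) (hR : ∀ m n, Measurable fun y => R y m n)
    (hq : ∀ m, Measurable fun y => q y m) (hA : ∀ m, Measurable fun y => A y m) (k : ℕ) :
    Measurable fun y => Mon (l y) (R y) (q y) k (A y) := by
  unfold Mon
  exact (Measurable.forall fun m => Measurable.forall fun m' => (hA m).imp ((hA m').imp
    ((hl m m').imp (Measurable.forall fun n => (m_chg hl hR hq k m n).imp
      (m_chg hl hR hq k m' n))))).or
    (Measurable.forall fun m => Measurable.forall fun m' => (hA m).imp ((hA m').imp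
    ((hl m m').imp (Measurable.forall fun n => (m_chg hl hR hq k m' n).imp
      (m_chg hl hR hq k m n)))))

theorem m_fin (hl : ∀ m n, Measurable fun y => l y m n) (hR : ∀ m n, Measurable fun y => R y m n)
    (hq : ∀ m, Measurable fun y => q y m) (m : ℕ) :
    Measurable fun y => FinC (l y) (R y) (q y) m := by
  unfold FinC
  exact Measurable.exists fun k => Measurable.forall fun n => (m_chg hl hR hq k m n).not

theorem m_ini (hl : ∀ m n, Measurable fun y => l y m n) (hR : ∀ m n, Measurable fun y => R y m n)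
    (hq : ∀ m, Measurable fun y => q y m) (m : ℕ) :
    Measurable fun y => Ini (l y) (R y) (q y) m := by
  unfold Ini
  exact Measurable.exists fun u => (hq u).and (Measurable.forall fun v => (hq v).imp
    ((measurable_const.or (hl v u)).imp (hR m v)))

theorem m_good {Q : Y → ℕ → ℕ → Prop} (hl : ∀ m n, Measurable fun y => l y m n)
    (hR : ∀ m n, Measurable fun y => R y m n) (hQ : ∀ r m, Measurable fun y => Q y r m)
    (s m : ℕ) : Measurable fun y => Good (l y) (R y) (Q y) s m := by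
  unfold Good
  exact (m_fin hl hR (hQ s) m).and (Measurable.forall fun k => Measurable.exists fun r =>
    (hQ r m).and (m_mon hl hR (hQ s) (hQ r) k))

theorem m_pmr {Q : Y → ℕ → ℕ → Prop} (hl : ∀ m n, Measurable fun y => l y m n)
    (hR : ∀ m n, Measurable fun y => R y m n) (hQ : ∀ r m, Measurable fun y => Q y r m) :
    Measurable fun y => PMr (l y) (R y) (Q y) := by
  unfold PMr
  exact Measurable.forall fun m => Measurable.forall fun n => Measurable.exists fun q =>
    (hQ q n).and (m_good hl hR hQ q m)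

theorem m_hull (hl : ∀ m n, Measurable fun y => l y m n) (hR : ∀ m n, Measurable fun y => R y m n)
    (hq : ∀ m, Measurable fun y => q y m) (hA : ∀ m, Measurable fun y => A y m) (k e m n : ℕ) :
    Measurable fun y => Hull (l y) (R y) (q y) k (A y) e m n := by
  unfold Hull
  exact Measurable.exists fun m' => (hA m').and ((measurable_const.or
    ((measurable_const.and (hl m m')).or (measurable_const.and (hl m' m)))).and
      (m_chg hl hR hq k m' n))

theorem m_gr (hl : ∀ m n, Measurable fun y => l y m n) (hR : ∀ m n, Measurable fun y => R y m n)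
    (hq : ∀ m, Measurable fun y => q y m) (hA : ∀ m, Measurable fun y => A y m) (k : ℕ) :
    ∀ j m, Measurable fun y => Gr (l y) (R y) (q y) k (A y) j m := by
  intro j
  induction j with
  | zero => exact fun m => measurable_const
  | succ j ih =>
    intro m
    unfold Gr
    exact m_mon (A := fun y m' => A y m' ∧ (m' = m ∨ l y m' m) ∧
      ¬ Gr (l y) (R y) (q y) k (A y) j m') hl hR hq
      (fun m' => (hA m').and ((measurable_const.or (hl m' m)).and (ih m').not)) k

theorem m_pc (hl : ∀ m n, Measurable fun y => l y m n) (hR : ∀ m n, Measurable fun y => R y m n)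
    (hq : ∀ m, Measurable fun y => q y m) (hA : ∀ m, Measurable fun y => A y m) (k j m : ℕ) :
    Measurable fun y => Pc (l y) (R y) (q y) k (A y) j m := by
  unfold Pc
  exact (hA m).and ((m_gr hl hR hq hA k (j + 1) m).and (m_gr hl hR hq hA k j m).not)

end meas

theorem m_rel (i : ℕ) (v : Fin (a i) → ℕ) : Measurable fun x : RS a => x i v = true := by
  have h1 : Continuous fun x : RS a => x i v := (continuous_apply _).comp (continuous_apply i)
  exact measurableSet_setOfPred.1 ((isClopen_discrete {true}).preimage h1).isOpen.measurableSet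

/-! ### The coding -/

section coding

variable {Lo : List ℕ → RS a → ℕ → ℕ → Prop} {Q : ℕ → List ℕ → RS a → ℕ → Prop}
  {D : ℕ → List ℕ → RS a → ℕ → ℕ → Prop}

theorem m_pat (hL : DefB Lo) (hQ : FamU Q) (hD : ∀ j, DefB (D j)) (p : List ℕ) (i : ℕ)
    (J C : Finset ℕ) :
    Measurable fun x : RS a => Pat (Lo p x) (fun r => Q r p x) (fun j => D j p x) x i J C := by
  have h1 : ∀ m n, Measurable fun x => Lo p x m n := fun m n =>
    measurableSet_setOfPred.1 (hL.meas p m n)
  have h2 : ∀ r m, Measurable fun x => Q r p x m := fun r m =>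
    measurableSet_setOfPred.1 (hQ.meas r p m)
  have h3 : ∀ j m n, Measurable fun x => D j p x m n := fun j m n =>
    measurableSet_setOfPred.1 ((hD j).meas p m n)
  unfold Pat
  exact (Measurable.forall fun j => measurable_const.imp (m_pmr h1 (h3 j) h2)).and
    (Measurable.forall fun v => (Measurable.forall fun j => measurable_const.imp
      (Measurable.forall fun s => Measurable.forall fun t => (h3 j _ _).iff
        measurable_const)).imp (m_rel i v))

theorem m_cc (hL : DefB Lo) (hQ : FamU Q) (hD : ∀ j, DefB (D j)) (p : List ℕ) :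
    Measurable fun x : RS a => cc (Lo p x) (fun r => Q r p x) (fun j => D j p x) x := by
  have h1 : ∀ m n, Measurable fun x => Lo p x m n := fun m n =>
    measurableSet_setOfPred.1 (hL.meas p m n)
  have h2 : ∀ r m, Measurable fun x => Q r p x m := fun r m =>
    measurableSet_setOfPred.1 (hQ.meas r p m)
  have h3 : ∀ j m n, Measurable fun x => D j p x m n := fun j m n =>
    measurableSet_setOfPred.1 ((hD j).meas p m n)
  refine meas_into ?_ ?_ ?_
  · intro m n
    simp only [cc, lt_mk]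
    exact measurableSet_setOfPred.2 (h1 m n)
  · intro j m n
    simp only [cc, ac_mk]
    exact measurableSet_setOfPred.2 (m_hull h1 (h3 _) (h2 _) (h2 _) _ _ m n)
  · intro j m
    simp only [cc, co_mk]
    refine measurableSet_setOfPred.2 ?_
    unfold cop
    split_ifs
    · exact h2 _ m
    · exact m_ini h1 (h3 _) (h2 _) m
    · exact m_good h1 (h3 _) h2 _ m
    · exact m_pat hL hQ hD p _ _ _

theorem i_cc (hL : DefB Lo) (hQ : FamU Q) (hD : ∀ j, DefB (D j)) (p : List ℕ)
    (σ : Equiv.Perm ℕ) (x : RS a) :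
    IsI σ (cc (Lo p x) (fun r => Q r p x) (fun j => D j p x) x)
      (cc (Lo (p.map σ) (act σ x)) (fun r => Q r (p.map σ) (act σ x))
        (fun j => D j (p.map σ) (act σ x)) (act σ x)) := by
  have h1 : ∀ m n, Lo (p.map σ) (act σ x) (σ m) (σ n) ↔ Lo p x m n := hL.equi p x σ
  have h2 : ∀ r m, Q r (p.map σ) (act σ x) (σ m) ↔ Q r p x m := fun r => hQ.equi r p x σ
  have h3 : ∀ j m n, D j (p.map σ) (act σ x) (σ m) (σ n) ↔ D j p x m n := fun j =>
    (hD j).equi p x σ
  refine ⟨fun m n => ?_, fun j m n => ?_, fun j m => ?_⟩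
  · simp only [cc, lt_mk, h1]
  · simp only [cc, ac_mk]
    exact hull_equi h1 (h3 _) (h2 _) (h2 _) _ _ m n
  · simp only [cc, co_mk]
    unfold cop
    split_ifs
    · exact h2 _ m
    · exact ini_equi h1 (h3 _) (h2 _) m
    · exact good_equi h1 (h3 _) h2 _ m
    · exact pat_equi h1 h3 h2 x _ _ _

theorem i_dch {σ : Equiv.Perm ℕ} {z z' : R2} (h : IsI σ z z') (i q k m n : ℕ) :
    dch z' i q k (σ m) (σ n) ↔ dch z i q k m n := by
  unfold dch
  simp only [h.2.1, h.2.2]

theorem i_drl {σ : Equiv.Perm ℕ} {z z' : R2} (h : IsI σ z z') (i m n : ℕ) :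
    drl z' i (σ m) (σ n) ↔ drl z i m n := by
  unfold drl
  simp only [h.2.2, i_dch h]

theorem i_dcp {σ : Equiv.Perm ℕ} {z z' : R2} (h : IsI σ z z') (i : ℕ) (v : Fin (a i) → ℕ) :
    dcp z' i (⇑σ ∘ v) ↔ dcp z i v := by
  unfold dcp
  refine exists_congr fun J => exists_congr fun C => ?_
  rw [σ.surjective.exists]
  simp only [h.2.2, Function.comp_apply, i_drl h]

theorem m_drl (i m n : ℕ) : Measurable fun z : R2 => drl z i m n := by
  unfold drl dch
  exact Measurable.exists fun q => (mset_co _ _).and ((mset_co _ _).and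
      (Measurable.exists fun k => (Measurable.forall fun r => (mset_co _ _).imp
        ((mset_ac _ _ _).and (mset_ac _ _ _))).and ((Measurable.forall fun r =>
          (mset_co _ _).imp ((mset_ac _ _ _).and (mset_ac _ _ _))).not.and
          ((mset_co _ _).iff measurable_const))))

theorem m_dcp (i : ℕ) (v : Fin (a i) → ℕ) : Measurable fun z : R2 => dcp z i v := by
  unfold dcp
  exact Measurable.exists fun J => Measurable.exists fun C => Measurable.exists fun u =>
    (mset_co _ _).and (Measurable.forall fun j => measurable_const.imp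
      (Measurable.forall fun s => Measurable.forall fun t => (m_drl _ _ _).iff
        measurable_const))

theorem pcanon (hL : DefB Lo) (hQ : FamU Q) (hD : ∀ j, DefB (D j)) :
    PCanon (fun p (x : RS a) => cc (Lo p x) (fun r => Q r p x) (fun j => D j p x) x)
      (fun _ => (dd : R2 → RS a)) := by
  classical
  refine ⟨fun p => m_cc hL hQ hD p, fun p => ?_, fun σ p x => ?_, fun σ p z => ?_⟩
  · refine measurable_pi_lambda _ fun i => measurable_pi_lambda _ fun v => ?_
    refine measurable_to_bool ?_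
    have e : (fun z : R2 => dd (a := a) z i v) ⁻¹' {true} = {z | dcp z i v} := by
      ext z
      exact decide_eq_true_iff
    rw [e]
    exact measurableSet_setOfPred.2 (m_dcp i v)
  · exact isI_iff.1 (i_cc hL hQ hD p σ x)
  · funext i v
    show decide (dcp (act σ z) i v) = decide (dcp z i (⇑σ.symm ∘ v))
    refine decide_eq_decide.2 ?_
    rw [← i_dcp (isI_act σ z)]
    have e : ⇑σ ∘ ⇑σ.symm ∘ v = v := by
      funext j
      simp
    rw [e]

variable {l : ℕ → ℕ → Prop} {P : ℕ → ℕ → Prop} {E : ℕ → ℕ → ℕ → Prop} {x : RS a}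

theorem mar_cc (hl : SLO l) : MAr (cc l P E x) := by
  refine ⟨fun m => ?_, fun m n k => ?_, fun m n => ?_, fun i m m' n hi => ?_,
    fun i m m' n hi => ?_, fun i m n n' => ?_⟩
  · simp only [cc, lt_mk]
    exact hl.irr m
  · simp only [cc, lt_mk]
    exact hl.tr m n k
  · simp only [cc, lt_mk]
    exact hl.tot m n
  · simp only [cc, lt_mk, ac_mk]
    rintro h1 ⟨m1, h2, h3, h4⟩
    refine ⟨m1, h2, Or.inr (Or.inl ⟨hi, ?_⟩), h4⟩
    rcases h3 with rfl | ⟨-, h3⟩ | ⟨h3, -⟩
    · exact h1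
    · exact hl.tr _ _ _ h1 h3
    · exact absurd hi h3
  · simp only [cc, lt_mk, ac_mk]
    rintro h1 ⟨m1, h2, h3, h4⟩
    refine ⟨m1, h2, Or.inr (Or.inr ⟨hi, ?_⟩), h4⟩
    rcases h3 with rfl | ⟨h3, -⟩ | ⟨-, h3⟩
    · exact h1
    · exact absurd h3 hi
    · exact hl.tr _ _ _ h3 h1
  · simp only [cc, lt_mk, ac_mk]
    rintro h1 ⟨m1, h2, h3, h4⟩
    exact ⟨m1, h2, h3, chg_right hl h4 h1⟩

theorem co_cc0 (r m : ℕ) : co (cc l P E x) (4 * r) m ↔ P r m := by
  simp only [cc, co_mk, cop]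
  rw [if_pos (by omega), show 4 * r / 4 = r by omega]

theorem co_cc1 (i q m : ℕ) : co (cc l P E x) (4 * Nat.pair i q + 1) m ↔ Ini l (E i) (P q) m := by
  simp only [cc, co_mk, cop]
  rw [if_neg (by omega), if_pos (by omega),
    show (4 * Nat.pair i q + 1) / 4 = Nat.pair i q by omega, Nat.unpair_pair]

theorem co_cc2 (i q m : ℕ) : co (cc l P E x) (4 * Nat.pair i q + 2) m ↔ Good l (E i) P q m := by
  simp only [cc, co_mk, cop]
  rw [if_neg (by omega), if_neg (by omega), if_pos (by omega),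
    show (4 * Nat.pair i q + 2) / 4 = Nat.pair i q by omega, Nat.unpair_pair]

theorem co_cc3 (i J C m : ℕ) : co (cc l P E x) (4 * Nat.pair i (Nat.pair J C) + 3) m ↔
    Pat l P E x i (fs J) (fs C) := by
  simp only [cc, co_mk, cop]
  rw [if_neg (by omega), if_neg (by omega), if_neg (by omega),
    show (4 * Nat.pair i (Nat.pair J C) + 3) / 4 = Nat.pair i (Nat.pair J C) by omega,
    Nat.unpair_pair, Nat.unpair_pair]

theorem dch_cc {i q k m n : ℕ} (hg : Good l (E i) P q m) :
    dch (cc l P E x) i q k m n ↔ Chg l (E i) (P q) k m n := by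
  have e0 : ∀ r, ac (cc l P E x) (2 * ix i q k r) m n ↔ Hull l (E i) (P q) k (P r) 0 m n := by
    intro r
    simp only [cc, ac_mk]
    rw [show 2 * ix i q k r / 2 = ix i q k r by omega, ii_ix, iq_ix, ik_ix, ir_ix]
    unfold Hull
    simp
  have e1 : ∀ r, ac (cc l P E x) (2 * ix i q k r + 1) m n ↔
      Hull l (E i) (P q) k (P r) 1 m n := by
    intro r
    simp only [cc, ac_mk]
    rw [show (2 * ix i q k r + 1) / 2 = ix i q k r by omega, ii_ix, iq_ix, ik_ix, ir_ix]
    unfold Hull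
    have : (2 * ix i q k r + 1) % 2 = 1 := by omega
    rw [this]
  unfold dch
  simp only [e0, e1, co_cc0]
  constructor
  · intro h
    obtain ⟨r, h1, h2⟩ := hg.2 k
    exact (hull_iff h2 h1).1 (h r h1)
  · intro h r hr
    exact ⟨hull_self hr h _, hull_self hr h _⟩

theorem drl_cc (hl : SLO l) {i : ℕ} (h : PMr l (E i) P) (m n : ℕ) :
    drl (cc l P E x) i m n ↔ E i m n := by
  unfold drl
  constructor
  · rintro ⟨q, h5, h6, k, h7, h8, h9⟩
    rw [co_cc0] at h5
    rw [co_cc2] at h6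
    rw [dch_cc h6] at h7 h8
    rw [co_cc1] at h9
    exact (val_iff hl h5 h6.1).2 ⟨k, h7, h8, h9⟩
  · intro h5
    obtain ⟨q, h6, h7⟩ := h m n
    obtain ⟨k, h8, h9, h10⟩ := (val_iff hl h6 h7.1).1 h5
    refine ⟨q, (co_cc0 _ _).2 h6, (co_cc2 _ _ _).2 h7, k, ?_, ?_, ?_⟩
    · rw [dch_cc h7]
      exact h8
    · rw [dch_cc h7]
      exact h9
    · rw [co_cc1]
      exact h10

theorem dd_cc (hl : SLO l) (h : ∀ i, ∃ J, (∀ j ∈ J, PMr l (E j) P) ∧ Det E x i J) :
    dd (cc l P E x) = x := by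
  classical
  funext i v
  show decide (dcp (cc l P E x) i v) = x i v
  have key : dcp (cc l P E x) i v ↔ x i v = true := by
    unfold dcp
    constructor
    · rintro ⟨J, C, u, h1, h2⟩
      rw [co_cc3] at h1
      refine h1.2 v fun j hj s t => ?_
      rw [← h2 j hj s t, drl_cc hl (h1.1 j hj)]
    · intro hv
      obtain ⟨J, h1, h2⟩ := h i
      obtain ⟨J', hJ'⟩ := fs_surj J
      obtain ⟨C', hC'⟩ := fs_surj ((J ×ˢ (Finset.univ : Finset (Fin (a i) × Fin (a i)))).filter
        (fun w => E w.1 (v w.2.1) (v w.2.2)) |>.image fun w => Nat.pair w.1 (Nat.pair w.2.1 w.2.2))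
      have hC : ∀ j ∈ J, ∀ s t : Fin (a i),
          (E j (v s) (v t) ↔ Nat.pair j (Nat.pair s t) ∈ fs C') := by
        intro j hj s t
        rw [hC', Finset.mem_image]
        constructor
        · intro h3
          exact ⟨(j, (s, t)), Finset.mem_filter.2 ⟨Finset.mem_product.2 ⟨hj, Finset.mem_univ _⟩,
            h3⟩, rfl⟩
        · rintro ⟨⟨j', s', t'⟩, h3, h4⟩
          rw [Finset.mem_filter] at h3
          have h5 := Nat.pair_eq_pair.1 h4
          have h6 := Nat.pair_eq_pair.1 h5.2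
          have e1 : j' = j := h5.1
          have e2 : s' = s := Fin.ext h6.1
          have e3 : t' = t := Fin.ext h6.2
          subst e1 e2 e3
          exact h3.2
      refine ⟨J', C', 0, ?_, fun j hj s t => ?_⟩
      · rw [co_cc3, hJ']
        refine ⟨h1, fun w hw => h2 v w (fun j hj s t => ?_) hv⟩
        rw [hw j hj s t]
        exact hC j hj s t
      · rw [hJ'] at hj
        rw [drl_cc hl (h1 j hj)]
        exact hC j hj s t
  rw [Bool.eq_iff_iff, decide_eq_true_iff]
  exact key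

end coding

/-! ### The classes -/

section classes

variable (D : ℕ → List ℕ → RS a → ℕ → ℕ → Prop) (Q : ℕ → List ℕ → RS a → ℕ → Prop)

/-- the sets and the greedy pieces -/
def Qg (k r : ℕ) (p : List ℕ) (x : RS a) (m : ℕ) : Prop :=
  if r % 2 = 0 then Q (r / 2) p x m else
    Pc (D k p x) (D (ii (r / 2).unpair.1) p x) (Q (iq (r / 2).unpair.1) p x) (ik (r / 2).unpair.1)
      (Q (ir (r / 2).unpair.1) p x) (r / 2).unpair.2 m

variable {D Q}

theorem fam_Qg (hD : ∀ k, DefB (D k)) (hQ : FamU Q) (k : ℕ) : FamU (Qg D Q k) := by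
  refine ⟨fun r p m => ?_, fun r p x σ m => ?_⟩
  · have h1 : ∀ k m n, Measurable fun x => D k p x m n := fun k m n =>
      measurableSet_setOfPred.1 ((hD k).meas p m n)
    have h2 : ∀ r m, Measurable fun x => Q r p x m := fun r m =>
      measurableSet_setOfPred.1 (hQ.meas r p m)
    refine measurableSet_setOfPred.2 ?_
    unfold Qg
    split_ifs
    · exact h2 _ m
    · exact m_pc (h1 _) (h1 _) (h2 _) (h2 _) _ _ m
  · have h1 : ∀ k m n, D k (p.map σ) (act σ x) (σ m) (σ n) ↔ D k p x m n := fun k =>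
      (hD k).equi p x σ
    have h2 : ∀ r m, Q r (p.map σ) (act σ x) (σ m) ↔ Q r p x m := fun r => hQ.equi r p x σ
    unfold Qg
    split_ifs
    · exact h2 _ m
    · exact pc_equi (h1 _) (h1 _) (h2 _) (h2 _) _ _ m

/-- `R` is piecewise monotone from `P` to `q`. -/
structure NT (l R : ℕ → ℕ → Prop) (P q : ℕ → Prop) : Prop where
  fin : ∀ m, P m → FinC l R q m
  pieces : ∀ k, ∃ (s : ℕ) (c : ℕ → ℕ), (∀ m, c m < s) ∧
    (∀ m m', P m → P m' → l m m' → c m ≤ c m') ∧ ∀ t, Mon l R q k fun m => P m ∧ c m = t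

variable (D Q)

/-- the class -/
def WN (x : RS a) : Prop := ∃ k p, SLO (D k p x) ∧ ∀ i, ∃ J : Finset ℕ,
  (∀ j ∈ J, ∀ m n, ∃ r s, Q r p x m ∧ Q s p x n ∧
    NT (D k p x) (D j p x) (Q r p x) (Q s p x)) ∧ Det (fun j => D j p x) x i J

/-- a larger class -/
def WC (x : RS a) : Prop := ∃ k, PExp
  (fun p (x : RS a) => cc (D k p x) (fun r => Qg D Q k r p x) (fun j => D j p x) x)
    (fun _ => (dd : R2 → RS a)) MAr x

variable {D Q}

theorem wn_sub {x : RS a} (h : WN D Q x) : WC D Q x := by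
  obtain ⟨k, p, h1, h2⟩ := h
  refine ⟨k, p, mar_cc h1, dd_cc h1 ?_⟩
  intro i
  obtain ⟨J, hJ, hd⟩ := h2 i
  refine ⟨J, fun i' hi m n => ?_, hd⟩
  obtain ⟨r, s, h3, h4, h5⟩ := hJ i' hi m n
  have e1 : Qg D Q k (2 * s) p x = Q s p x := by
    funext m
    unfold Qg
    rw [if_pos (by omega), show 2 * s / 2 = s by omega]
  refine ⟨2 * s, ?_, ?_, fun t => ?_⟩
  · show Qg D Q k (2 * s) p x n
    rw [e1]
    exact h4
  · show FinC _ _ (Qg D Q k (2 * s) p x) m
    rw [e1]
    exact h5.fin m h3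
  · obtain ⟨b, c, hc, hm, hM⟩ := h5.pieces t
    obtain ⟨j, hj⟩ := pc_cover c hc hm hM h3
    have e2 : Qg D Q k (2 * Nat.pair (ix i' s t r) j + 1) p x =
        Pc (D k p x) (D i' p x) (Q s p x) t (Q r p x) j := by
      funext m
      unfold Qg
      rw [if_neg (by omega), show (2 * Nat.pair (ix i' s t r) j + 1) / 2 =
        Nat.pair (ix i' s t r) j by omega, Nat.unpair_pair]
      simp only
      rw [ii_ix, iq_ix, ik_ix, ir_ix]
    refine ⟨2 * Nat.pair (ix i' s t r) j + 1, ?_, ?_⟩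
    · show Qg D Q k (2 * Nat.pair (ix i' s t r) j + 1) p x m
      rw [e2]
      exact hj
    · show Mon _ _ (Qg D Q k (2 * s) p x) t (Qg D Q k (2 * Nat.pair (ix i' s t r) j + 1) p x)
      rw [e1, e2]
      exact mon_pc h1 _ j

theorem vcu_WC (hD : ∀ k, DefB (D k)) (hQ : FamU Q) : VCu (WC D Q) :=
  Pool.Agent.TH425.FF.cun_vcu _
    (fun k => Pool.Agent.TH425.FF.pexp_vcu (pcanon (hD k) (fam_Qg hD hQ k) hD) vcu_MAr coan_MAr
      inv_MAr)
    (fun k => Pool.Agent.TH425.FF.pexp_coan (pcanon (hD k) (fam_Qg hD hQ k) hD) coan_MAr)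
    (fun k => Pool.Agent.TH425.FF.pexp_inv (pcanon (hD k) (fam_Qg hD hQ k) hD) inv_MAr)

/-- **The dichotomy.** -/
theorem vc_WN (hD : ∀ k, DefB (D k)) (hQ : FamU Q) : VC (WN D Q) := by
  intro B hB hi hV
  exact vs_plain _ _ (vcu_WC hD hQ) B hB hi fun x hx => wn_sub (hV x hx)

end classes

end Pool.Agent.N481.VT.PM
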