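import Pool.Agent.N481.VT.Pm
import Pool.Agent.N481.VT.FO

set_option autoImplicit false

/-!
First-order theories with piecewise monotone relations.
-/

namespace Pool.Agent.N481.VT.FO

open Set MeasureTheory FirstOrder FirstOrder.Language
open Pool.Agent.H533R2.VO (RS RIso VC Dich)
open Pool.Agent.H533R2.VS
open Pool.Agent.N481.VT.PM (DefB FamU WN vc_WN NT Det)

variable {L : FirstOrder.Language.{0, 0}}

/-- The dichotomy for the models of `T` from the conjecture for a class of structures. -/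
theorem dichotomy_gen [L.IsRelational] (hc : Countable (Σ n, L.Relations n)) (T : L.Theory)
    (e : ℕ → Option (Σ n, L.Relations n)) (he : Function.Surjective e)
    (W : RS (fun i => ar (e i)) → Prop) (hW : VC W)
    (hT : ∀ S : L.Structure ℕ, @Theory.Model L ℕ S T → W (enc e S)) :
    (∃ g : ℕ → L.Structure ℕ, ∀ S : L.Structure ℕ, @Theory.Model L ℕ S T →
        ∃ n : ℕ, Nonempty (@FirstOrder.Language.Equiv L ℕ ℕ S (g n))) ∨
    (∃ f : (ℕ → Bool) → L.Structure ℕ, (∀ x : ℕ → Bool, @Theory.Model L ℕ (f x) T) ∧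
      (∀ x y : ℕ → Bool, Nonempty (@FirstOrder.Language.Equiv L ℕ ℕ (f x) (f y)) → x = y) ∧
      (∀ (n : ℕ) (R : L.Relations n) (a : Fin n → ℕ),
        IsClopen {x : ℕ → Bool | @Structure.RelMap L ℕ (f x) n R a})) := by
  have hw : ∀ x ∈ BT e he T, W x := by
    rintro x ⟨h1, h2⟩
    rw [← h1]
    exact hT _ h2
  rcases hW (BT e he T) (meas_BT e he hc T) (inv_BT e he T) hw with ⟨f, hf⟩ | ⟨g, hg, hgB, hgi⟩
  · left
    refine ⟨fun n => dec e he (f n), fun S hS => ?_⟩
    have h1 : enc e S ∈ BT e he T := by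
      refine ⟨by rw [dec_enc], ?_⟩
      rw [dec_enc]
      exact hS
    obtain ⟨n, σ, hσ⟩ := hf _ h1
    refine ⟨n, ⟨?_⟩⟩
    have h2 := isoOf σ (dec_iso e he hσ)
    rw [dec_enc] at h2
    exact @FirstOrder.Language.Equiv.symm L ℕ ℕ (dec e he (f n)) S h2
  · right
    refine ⟨fun c => dec e he (g c), fun c => (hgB c).2, fun c d h => ?_, fun n R v => ?_⟩
    · obtain ⟨τ⟩ := h
      refine hgi c d ⟨@FirstOrder.Language.Equiv.toEquiv L ℕ ℕ (dec e he (g c)) (dec e he (g d)) τ,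
        fun i v => ?_⟩
      have h1 := enc_iso e (S := dec e he (g c)) (S' := dec e he (g d))
        (σ := @FirstOrder.Language.Equiv.toEquiv L ℕ ℕ (dec e he (g c)) (dec e he (g d)) τ)
        (fun n R v => @FirstOrder.Language.Equiv.map_rel' L ℕ ℕ (dec e he (g c))
          (dec e he (g d)) τ n R v) i v
      rw [(hgB c).1, (hgB d).1] at h1
      exact h1
    · exact (clopen_rel e he R v).preimage hg

/-! ### Defined sets -/

variable (e : ℕ → Option (Σ n, L.Relations n)) (he : Function.Surjective e)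

/-- the set defined by a formula -/
def FU [L.IsRelational] (F : ℕ → Σ n, L.Formula (Fin n ⊕ Fin 1)) (k : ℕ) (p : List ℕ)
    (x : RS (fun i => ar (e i))) (u : ℕ) : Prop :=
  ∃ h : p.length = (F k).1, @Formula.Realize L ℕ (dec e he x) _ (F k).2
    (Sum.elim (fun i => p.get (Fin.cast h.symm i)) ![u])

theorem fam_FU [L.IsRelational] (F : ℕ → Σ n, L.Formula (Fin n ⊕ Fin 1)) :
    FamU (FU e he F) := by
  refine ⟨fun k p m => ?_, fun k p x σ m => ?_⟩
  · by_cases h : p.length = (F k).1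
    · have e1 : {x : RS (fun i => ar (e i)) | FU e he F k p x m} =
          {x | @Formula.Realize L ℕ (dec e he x) _ (F k).2
            (Sum.elim (fun i => p.get (Fin.cast h.symm i)) ![m])} := by
        ext x
        exact ⟨fun ⟨_, h1⟩ => h1, fun h1 => ⟨h, h1⟩⟩
      rw [e1]
      exact meas_realize (fun n R v => meas_rel e he R v) _ _ _
    · have e1 : {x : RS (fun i => ar (e i)) | FU e he F k p x m} = ∅ := by
        ext x
        exact ⟨fun ⟨h1, _⟩ => absurd h1 h, fun h1 => absurd h1 (notMem_empty _)⟩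
      rw [e1]
      exact MeasurableSet.empty
  · have h1 := dec_iso e he (fun i v => act_rel σ x i v)
    have h2 : ∀ c : Fin (F k).1 ⊕ Fin 1 → ℕ,
        @Formula.Realize L ℕ (dec e he x) _ (F k).2 c ↔
          @Formula.Realize L ℕ (dec e he (act σ x)) _ (F k).2 (fun i => σ (c i)) := fun c =>
      (@StrongHomClass.realize_formula L ℕ ℕ (dec e he x) (dec e he (act σ x)) _ _ _ _
        (isoOf σ h1) (F k).2 c).symm
    unfold FU
    constructor
    · rintro ⟨h, h3⟩
      have h' : p.length = (F k).1 := by rw [← h, List.length_map]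
      refine ⟨h', (h2 _).2 ?_⟩
      convert h3 using 2
      rename_i i
      rcases i with i | i
      · simp
      · fin_cases i; rfl
    · rintro ⟨h', h3⟩
      have h : (p.map σ).length = (F k).1 := by rw [← h', List.length_map]
      refine ⟨h, ?_⟩
      have h4 := (h2 _).1 h3
      convert h4 using 2
      rename_i i
      rcases i with i | i
      · simp
      · fin_cases i; rfl

theorem fu_key (S : L.Structure ℕ) (k : ℕ) (φ : L.Formula (Fin k ⊕ Fin 1)) (p : Fin k → ℕ)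
    (u : ℕ) (q : Σ n, L.Formula (Fin n ⊕ Fin 1)) (hq : q = ⟨k, φ⟩) :
    (∃ h : (List.ofFn p).length = q.1, @Formula.Realize L ℕ S _ q.2
      (Sum.elim (fun i => (List.ofFn p).get (Fin.cast h.symm i)) ![u])) ↔
    @Formula.Realize L ℕ S _ φ (Sum.elim p ![u]) := by
  subst hq
  have key : ∀ h : (List.ofFn p).length = k,
      (Sum.elim (fun i => (List.ofFn p).get (Fin.cast h.symm i)) ![u] : Fin k ⊕ Fin 1 → ℕ) =
        Sum.elim p ![u] := by
    intro h
    funext i
    rcases i with i | i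
    · simp
    · rfl
  constructor
  · rintro ⟨h, h3⟩
    simp only at h3
    rw [key h] at h3
    exact h3
  · intro h3
    refine ⟨by simp, ?_⟩
    simp only
    rw [key (by simp)]
    exact h3

theorem countable_formula [L.IsRelational] (hc : Countable (Σ n, L.Relations n)) (j : ℕ) :
    Countable (Σ n, L.Formula (Fin n ⊕ Fin j)) := by
  have hf : Countable (Σ n, L.Functions n) := by
    have : ∀ n, IsEmpty (L.Functions n) := fun n => inferInstance
    infer_instance
  have h2 : Countable L.Symbols :=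
    inferInstanceAs (Countable ((Σ n, L.Functions n) ⊕ Σ n, L.Relations n))
  have h3 : ∀ n, Countable (L.Formula (Fin n ⊕ Fin j)) := by
    intro n
    have h3 : Cardinal.mk (Σ k, L.BoundedFormula (Fin n ⊕ Fin j) k) ≤ Cardinal.aleph0 := by
      refine BoundedFormula.card_le.trans ?_
      refine max_le le_rfl ?_
      rw [Cardinal.lift_id, Cardinal.lift_id]
      refine Cardinal.add_le_aleph0.2 ⟨Cardinal.mk_le_aleph0, Cardinal.mk_le_aleph0⟩
    have h4 : Countable (Σ k, L.BoundedFormula (Fin n ⊕ Fin j) k) :=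
      Cardinal.mk_le_aleph0_iff.1 h3
    exact (sigma_mk_injective (β := fun k => L.BoundedFormula (Fin n ⊕ Fin j) k)
      (i := 0)).countable
  infer_instance

/-- The relation `R` of `S` is determined by the relations `D ψ`, `ψ ∈ J`. -/
def DetL (S : L.Structure ℕ) {n : ℕ} (R : L.Relations n) {ι : Type} (D : ι → ℕ → ℕ → Prop)
    (J : Finset ι) : Prop :=
  ∀ v w : Fin n → ℕ, (∀ j ∈ J, ∀ s t, D j (v s) (v t) ↔ D j (w s) (w t)) →
    @Structure.RelMap L ℕ S n R v → @Structure.RelMap L ℕ S n R w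

/-- **The first-order form.** -/
theorem pm_dichotomy [L.IsRelational] (hc : Countable (Σ n, L.Relations n)) (T : L.Theory)
    (hT : ∀ S : L.Structure ℕ, @Theory.Model L ℕ S T →
      ∃ (k : ℕ) (p : Fin k → ℕ) (D : L.Formula (Fin k ⊕ Fin 2) → ℕ → ℕ → Prop)
        (Q : L.Formula (Fin k ⊕ Fin 1) → ℕ → Prop) (φ : L.Formula (Fin k ⊕ Fin 2)),
        (∀ ψ u v, D ψ u v ↔ @Formula.Realize L ℕ S _ ψ (Sum.elim p ![u, v])) ∧
        (∀ ψ u, Q ψ u ↔ @Formula.Realize L ℕ S _ ψ (Sum.elim p ![u])) ∧ SLO (D φ) ∧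
        ∀ (n : ℕ) (R : L.Relations n), ∃ J : Finset (L.Formula (Fin k ⊕ Fin 2)),
          (∀ ψ ∈ J, ∀ u v, ∃ α β, Q α u ∧ Q β v ∧ NT (D φ) (D ψ) (Q α) (Q β)) ∧
            DetL S R D J) :
    (∃ g : ℕ → L.Structure ℕ, ∀ S : L.Structure ℕ, @Theory.Model L ℕ S T →
        ∃ n : ℕ, Nonempty (@FirstOrder.Language.Equiv L ℕ ℕ S (g n))) ∨
    (∃ f : (ℕ → Bool) → L.Structure ℕ, (∀ x : ℕ → Bool, @Theory.Model L ℕ (f x) T) ∧
      (∀ x y : ℕ → Bool, Nonempty (@FirstOrder.Language.Equiv L ℕ ℕ (f x) (f y)) → x = y) ∧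
      (∀ (n : ℕ) (R : L.Relations n) (a : Fin n → ℕ),
        IsClopen {x : ℕ → Bool | @Structure.RelMap L ℕ (f x) n R a})) := by
  classical
  have hne : Nonempty (Option (Σ n, L.Relations n)) := ⟨none⟩
  obtain ⟨e, he⟩ := exists_surjective_nat (Option (Σ n, L.Relations n))
  have hF2c := countable_formula hc 2
  have hF1c := countable_formula hc 1
  have hF2n : Nonempty (Σ n, L.Formula (Fin n ⊕ Fin 2)) := ⟨⟨0, ⊥⟩⟩
  have hF1n : Nonempty (Σ n, L.Formula (Fin n ⊕ Fin 1)) := ⟨⟨0, ⊥⟩⟩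
  obtain ⟨F2, hF2⟩ := exists_surjective_nat (Σ n, L.Formula (Fin n ⊕ Fin 2))
  obtain ⟨F1, hF1⟩ := exists_surjective_nat (Σ n, L.Formula (Fin n ⊕ Fin 1))
  have hfam := fam_FD e he F2
  have hD : ∀ k, DefB (FD e he F2 k) := fun k => ⟨hfam.meas k, hfam.equi k⟩
  refine dichotomy_gen hc T e he (WN (FD e he F2) (FU e he F1))
    (vc_WN hD (fam_FU e he F1)) fun S hS => ?_
  obtain ⟨k, p, D, Q, φ, hD1, hQ1, hlo, hR⟩ := hT S hS
  -- indices of formulas
  choose g2 hg2 using fun ψ : L.Formula (Fin k ⊕ Fin 2) => hF2 ⟨k, ψ⟩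
  choose g1 hg1 using fun ψ : L.Formula (Fin k ⊕ Fin 1) => hF1 ⟨k, ψ⟩
  have kD : ∀ ψ, FD e he F2 (g2 ψ) (List.ofFn p) (enc e S) = D ψ := by
    intro ψ
    funext u v
    apply propext
    rw [hD1]
    unfold FD
    rw [dec_enc]
    exact fd_key S k ψ p u v _ (hg2 ψ)
  have kQ : ∀ ψ, FU e he F1 (g1 ψ) (List.ofFn p) (enc e S) = Q ψ := by
    intro ψ
    funext u
    apply propext
    rw [hQ1]
    unfold FU
    rw [dec_enc]
    exact fu_key S k ψ p u _ (hg1 ψ)
  refine ⟨g2 φ, List.ofFn p, by rw [kD]; exact hlo, fun i => ?_⟩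
  -- the relation number i
  have key : ∀ o : Option (Σ n, L.Relations n), ∃ J : Finset (L.Formula (Fin k ⊕ Fin 2)),
      (∀ ψ ∈ J, ∀ u v, ∃ α β, Q α u ∧ Q β v ∧ NT (D φ) (D ψ) (Q α) (Q β)) ∧
      ∀ v w : Fin (ar o) → ℕ, (∀ j ∈ J, ∀ s t, D j (v s) (v t) ↔ D j (w s) (w t)) →
        evr S o v = true → evr S o w = true := by
    intro o
    cases o with
    | none => exact ⟨∅, fun ψ hψ => absurd hψ (Finset.notMem_empty _), fun v w _ h => h⟩
    | some j =>
      obtain ⟨J, h1, h2⟩ := hR j.1 j.2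
      refine ⟨J, h1, fun v w h3 h4 => ?_⟩
      exact decide_eq_true (h2 v w h3 (of_decide_eq_true h4))
  obtain ⟨J, h1, h2⟩ := key (e i)
  refine ⟨J.image g2, fun j hj m n => ?_, fun v w hvw hv => ?_⟩
  · obtain ⟨ψ, hψ, rfl⟩ := Finset.mem_image.1 hj
    obtain ⟨α, β, h3, h4, h5⟩ := h1 ψ hψ m n
    refine ⟨g1 α, g1 β, ?_, ?_, ?_⟩
    · rw [kQ]; exact h3
    · rw [kQ]; exact h4
    · rw [kQ, kQ, kD, kD]; exact h5
  · refine h2 v w (fun ψ hψ s t => ?_) hv
    have h3 := hvw (g2 ψ) (Finset.mem_image_of_mem g2 hψ) s t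
    simp only [kD] at h3
    exact h3

end Pool.Agent.N481.VT.FO
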