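import Pool.Agent.N481.VT.Aut
import Pool.Agent.H533R2.VS.CSU
import Pool.Agent.Y560.TT.Fin1
import Pool.Agent.TH425.FF.Cun

set_option autoImplicit false

/-!
The tower theorem, with unary predicates and with parameters.
-/

namespace Pool.Agent.N481.VT

open Set MeasureTheory
open Pool.Agent.H533R2.VO (RS RIso VC Dich)
open Pool.Agent.H533R2.VS
open Pool.Agent.TH425.FF (PCanon PExp)

variable {a : ℕ → ℕ}

/-- The preorder given by the relation `ε`. -/
def Le (ε : ℕ) (x : RS a) (u v : ℕ) : Prop := x ε (p2 u v) = true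

structure TP (D : ℕ → ℕ → Prop) : Prop where
  total : ∀ u v, D u v ∨ D v u
  trans : ∀ u v w, D u v → D v w → D u w

/-- The relation `ε` is a total preorder whose initial segments have countable automorphism
groups. -/
def TW (ε : ℕ) (x : RS a) : Prop := TP (Le ε x) ∧ ∀ m, (SG x (Le ε x) m).Countable

theorem p2_map {n : ℕ} (s : ℕ → ℕ) (u v : ℕ) : s ∘ (p2 u v : Fin n → ℕ) = p2 (s u) (s v) := by
  funext j
  by_cases h : j.val = 0
  · simp [p2, h]
  · simp [p2, h]

theorem vcu_TW (ε : ℕ) : VCu (TW ε : RS a → Prop) := by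
  intro B hB hinv hV
  have hinv' : ∀ x y : RS (csu_ar a), RIso x y → (x ∈ csu_dec ⁻¹' B ↔ y ∈ csu_dec ⁻¹' B) := by
    rintro x y ⟨σ, h⟩
    exact hinv _ _ (csu_iso_dec x y σ h)
  let D : RS (csu_ar a) → ℕ → ℕ → Prop := fun z => Le ε (csu_dec z).1
  have hPre : Pool.Agent.Y560.TT.Pre (csu_dec ⁻¹' B) D := by
    refine ⟨fun m n => ?_, fun x hx y σ h m n => ?_, fun x hx m n => ?_, fun x hx => ?_⟩
    · refine (csu_dec_meas hB).inter ?_
      have h1 : Continuous fun z : RS (csu_ar a) => (csu_dec z).1 ε (p2 m n) :=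
        (continuous_apply _).comp ((continuous_apply ε).comp
          (continuous_fst.comp csu_dec_cont))
      exact ((isClopen_discrete {true}).preimage h1).isOpen.measurableSet
    · have h1 := ((⟨fun i v => h (2 * i) (fun j => v (Fin.cast (csu_even a i) j)), trivial⟩ : (∀ (i : ℕ) (v : Fin (a i) → ℕ), (csu_dec y).1 i (⇑σ ∘ v) = (csu_dec x).1 i v) ∧ True)).1 ε (p2 m n)
      rw [p2_map] at h1
      show _ = true ↔ _ = true
      rw [h1]
    · exact (hV _ hx).1.total m n
    · exact (hV _ hx).1.trans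
  have hc : ∀ x ∈ csu_dec ⁻¹' B, ∀ m, (Pool.Agent.Y560.TT.SegAut D x m).Countable := by
    intro x hx m
    refine ((hV _ hx).2 m).mono ?_
    rintro σ ⟨h1, h2⟩
    refine ⟨fun i v => ?_, h2⟩
    exact h1 (2 * i) fun j => v (Fin.cast (csu_even a i) j)
  rcases Pool.Agent.Y560.TT.tower_rel (csu_ar a) (csu_dec ⁻¹' B) (csu_dec_meas hB) hinv' D hPre
    hc with ⟨f, hf⟩ | ⟨g, hg, hgB, hgi⟩
  · left
    refine ⟨fun n => csu_dec (f n), fun x hx => ?_⟩
    obtain ⟨n, σ, hσ⟩ := hf (csu_enc x) (by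
      show csu_dec (csu_enc x) ∈ B
      rw [csu_dec_enc]; exact hx)
    refine ⟨n, ?_⟩
    have := csu_iso_dec (f n) (csu_enc x) σ hσ
    rwa [csu_dec_enc] at this
  · right
    exact ⟨fun c => csu_dec (g c), csu_dec_cont.comp hg, hgB,
      fun c d h => hgi c d (csu_iso_undec _ _ h)⟩

abbrev E0 (a : ℕ → ℕ) : Type := RS a × ((ℕ → ℕ) × (ℕ → ℕ))

theorem cl_of {X α : Type} [TopologicalSpace X] [TopologicalSpace α] [DiscreteTopology α]
    (f : X → α) (hf : Continuous f) (P : α → Prop) : IsClosed {q | P (f q)} :=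
  (isClosed_discrete {z | P z}).preimage hf

theorem closed_PA' (ε m : ℕ) :
    IsClosed {q : E0 a | PA q.1 (Le ε q.1) m q.2.1 q.2.2} := by
  have hs : ∀ n, Continuous fun q : E0 a => q.2.1 n := fun n =>
    (continuous_apply n).comp (continuous_fst.comp continuous_snd)
  have ht : ∀ n, Continuous fun q : E0 a => q.2.2 n := fun n =>
    (continuous_apply n).comp (continuous_snd.comp continuous_snd)
  have hx : ∀ i (v : Fin (a i) → ℕ), Continuous fun q : E0 a => q.1 i v := fun i v =>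
    (continuous_apply v).comp ((continuous_apply i).comp continuous_fst)
  have e : {q : E0 a | PA q.1 (Le ε q.1) m q.2.1 q.2.2} =
      {q | ∀ n k, q.2.2 n = k → q.2.1 k = n} ∩ {q | ∀ n k, q.2.1 n = k → q.2.2 k = n} ∩
      {q | ∀ n, ¬ q.1 ε (p2 n m) = true → q.2.1 n = n} ∩
      {q | ∀ (i : ℕ) (v w : Fin (a i) → ℕ), (∀ k, q.1 ε (p2 (v k) m) = true) →
        (fun k => q.2.1 (v k)) = w → q.1 i w = q.1 i v} ∩
      {q | ∀ u v u' v', q.2.1 u = u' → q.2.1 v = v' → q.1 ε (p2 u m) = true →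
        q.1 ε (p2 v m) = true → (q.1 ε (p2 u' v') = true ↔ q.1 ε (p2 u v) = true)} := by
    ext q
    constructor
    · intro h
      have h' : PA q.1 (Le ε q.1) m q.2.1 q.2.2 := h
      exact ⟨⟨⟨⟨fun n k e => e ▸ h'.st n, fun n k e => e ▸ h'.ts n⟩, h'.out⟩,
        fun i v w h1 h2 => h2 ▸ h'.rel i v h1⟩,
        fun u v u' v' e1 e2 h1 h2 => e1 ▸ e2 ▸ h'.pre u v h1 h2⟩
    · rintro ⟨⟨⟨⟨h1, h2⟩, h3⟩, h4⟩, h5⟩
      exact ⟨fun n => h1 n _ rfl, fun n => h2 n _ rfl, h3, fun i v hv => h4 i v _ hv rfl,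
        fun u v hu hv => h5 u v _ _ rfl rfl hu hv⟩
  rw [e]
  refine (((?_ : IsClosed _).inter ?_).inter ?_).inter ?_ |>.inter ?_
  · simp only [ofPred_forall]
    refine isClosed_iInter fun n => isClosed_iInter fun k => ?_
    exact cl_of (fun q : E0 a => (q.2.2 n, q.2.1 k)) ((ht n).prodMk (hs k))
      fun z => z.1 = k → z.2 = n
  · simp only [ofPred_forall]
    refine isClosed_iInter fun n => isClosed_iInter fun k => ?_
    exact cl_of (fun q : E0 a => (q.2.1 n, q.2.2 k)) ((hs n).prodMk (ht k))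
      fun z => z.1 = k → z.2 = n
  · simp only [ofPred_forall]
    refine isClosed_iInter fun n => ?_
    exact cl_of (fun q : E0 a => (q.1 ε (p2 n m), q.2.1 n)) ((hx _ _).prodMk (hs n))
      fun z => ¬ z.1 = true → z.2 = n
  · simp only [ofPred_forall]
    refine isClosed_iInter fun i => isClosed_iInter fun v => isClosed_iInter fun w => ?_
    exact cl_of (fun q : E0 a => ((fun k => q.1 ε (p2 (v k) m) : Fin (a i) → Bool),
        ((fun k => q.2.1 (v k) : Fin (a i) → ℕ), (q.1 i w, q.1 i v))))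
      ((continuous_pi fun k => hx _ _).prodMk ((continuous_pi fun k => hs _).prodMk
        ((hx _ _).prodMk (hx _ _))))
      fun z => (∀ k, z.1 k = true) → z.2.1 = w → z.2.2.1 = z.2.2.2
  · simp only [ofPred_forall]
    refine isClosed_iInter fun u => isClosed_iInter fun v => isClosed_iInter fun u' =>
      isClosed_iInter fun v' => ?_
    exact cl_of (fun q : E0 a => ((q.2.1 u, q.2.1 v), ((q.1 ε (p2 u m), q.1 ε (p2 v m)),
        (q.1 ε (p2 u' v'), q.1 ε (p2 u v)))))
      (((hs _).prodMk (hs _)).prodMk (((hx _ _).prodMk (hx _ _)).prodMk ((hx _ _).prodMk (hx _ _))))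
      fun z => z.1.1 = u' → z.1.2 = v' → z.2.1.1 = true → z.2.1.2 = true →
        (z.2.2.1 = true ↔ z.2.2.2 = true)

theorem meas_TP (ε : ℕ) : MeasurableSet {x : RS a | TP (Le ε x)} := by
  have e : {x : RS a | TP (Le ε x)} =
      {x | ∀ u v, x ε (p2 u v) = true ∨ x ε (p2 v u) = true} ∩
      {x | ∀ u v w, x ε (p2 u v) = true → x ε (p2 v w) = true → x ε (p2 u w) = true} := by
    ext x
    exact ⟨fun h => ⟨(show TP (Le ε x) from h).total, (show TP (Le ε x) from h).trans⟩,
      fun h => ⟨h.1, h.2⟩⟩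
  have hx : ∀ i (v : Fin (a i) → ℕ), Continuous fun q : RS a => q i v := fun i v =>
    (continuous_apply v).comp (continuous_apply i)
  rw [e]
  refine (IsClosed.inter ?_ ?_).measurableSet
  · simp only [ofPred_forall]
    refine isClosed_iInter fun u => isClosed_iInter fun v => ?_
    exact cl_of (fun x : RS a => (x ε (p2 u v), x ε (p2 v u))) ((hx _ _).prodMk (hx _ _))
      fun z => z.1 = true ∨ z.2 = true
  · simp only [ofPred_forall]
    refine isClosed_iInter fun u => isClosed_iInter fun v => isClosed_iInter fun w => ?_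
    exact cl_of (fun x : RS a => (x ε (p2 u v), (x ε (p2 v w), x ε (p2 u w))))
      ((hx _ _).prodMk ((hx _ _).prodMk (hx _ _)))
      fun z => z.1 = true → z.2.1 = true → z.2.2 = true

theorem an_union {X : Type} [TopologicalSpace X] {s t : Set X} (hs : AnalyticSet s)
    (ht : AnalyticSet t) : AnalyticSet (s ∪ t) := by
  have e : s ∪ t = ⋃ b : Bool, (if b then s else t) := by
    ext x
    simp [or_comm]
  rw [e]
  refine AnalyticSet.iUnion fun b => ?_
  cases b
  · exact ht
  · exact hs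

theorem coan_TW (ε : ℕ) : Coan (TW ε : RS a → Prop) := by
  have b1 : BorelSpace (RS a) := inferInstance
  have b2 : BorelSpace ((ℕ → ℕ) × (ℕ → ℕ)) := inferInstance
  have s1 : SecondCountableTopology (RS a) := inferInstance
  have b3 : BorelSpace (E0 a) := Prod.borelSpace
  have p1 : PolishSpace (RS a) := polish_of
  have p2' : PolishSpace (E0 a) := polish_of
  unfold Coan
  have e : {x : RS a | ¬ TW ε x} = {x | TP (Le ε x)}ᶜ ∪
      ⋃ m : ℕ, ⋂ C : List ℕ, Prod.fst '' ({q : E0 a | PA q.1 (Le ε q.1) m q.2.1 q.2.2} ∩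
        {q | (∀ c ∈ C, q.2.1 c = c) ∧ ¬ q.2.1 = id}) := by
    ext x
    constructor
    · intro h
      by_cases h1 : TP (Le ε x)
      · right
        have h2 : ∃ m, ¬ (SG x (Le ε x) m).Countable := by
          by_contra hc
          push Not at hc
          exact h ⟨h1, hc⟩
        obtain ⟨m, hm⟩ := h2
        rw [countable_iff_base] at hm
        unfold Base at hm
        push Not at hm
        refine mem_iUnion.2 ⟨m, mem_iInter.2 fun C => ?_⟩
        obtain ⟨s, t, h3, h4, h5⟩ := hm C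
        exact ⟨(x, (s, t)), ⟨h3, h4, h5⟩, rfl⟩
      · exact Or.inl h1
    · rintro (h | h)
      · exact fun h1 => h h1.1
      · obtain ⟨m, hm⟩ := mem_iUnion.1 h
        rw [mem_iInter] at hm
        intro h1
        obtain ⟨C, hC⟩ := countable_iff_base.1 (h1.2 m)
        obtain ⟨⟨x', s, t⟩, ⟨h3, h4, h5⟩, h6⟩ := hm C
        simp only at h6
        subst h6
        exact h5 (hC s t h3 h4)
  rw [e]
  refine an_union (meas_TP ε).compl.analyticSet
    (AnalyticSet.iUnion fun m => AnalyticSet.iInter fun C => ?_)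
  refine AnalyticSet.image_of_continuous (MeasurableSet.analyticSet ?_) continuous_fst
  refine (closed_PA' ε m).measurableSet.inter ?_
  have hs : ∀ n, Continuous fun q : E0 a => q.2.1 n := fun n =>
    (continuous_apply n).comp (continuous_fst.comp continuous_snd)
  refine MeasurableSet.inter ?_ ?_
  · have h1 : IsClosed {q : E0 a | ∀ c ∈ C, q.2.1 c = c} := by
      simp only [ofPred_forall]
      refine isClosed_iInter fun c => isClosed_iInter fun _ => ?_
      exact cl_of (fun q : E0 a => q.2.1 c) (hs c) fun z => z = c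
    exact h1.measurableSet
  · have h1 : IsClosed {q : E0 a | q.2.1 = id} :=
      isClosed_eq (continuous_fst.comp continuous_snd) continuous_const
    exact h1.measurableSet.compl

theorem pa_iso {x y : RS a} {σ : Equiv.Perm ℕ}
    (h : ∀ (i : ℕ) (v : Fin (a i) → ℕ), y i (⇑σ ∘ v) = x i v) {ε : ℕ} {m : ℕ} {s t : ℕ → ℕ}
    (hp : PA y (Le ε y) (σ m) s t) :
    PA x (Le ε x) m (⇑σ.symm ∘ s ∘ ⇑σ) (⇑σ.symm ∘ t ∘ ⇑σ) := by
  have hle : ∀ u v, Le ε y (σ u) (σ v) ↔ Le ε x u v := by
    intro u v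
    have h1 := h ε (p2 u v)
    rw [p2_map] at h1
    unfold Le
    rw [h1]
  refine ⟨fun n => ?_, fun n => ?_, fun n hn => ?_, fun i v hv => ?_, fun u v hu hv => ?_⟩
  · simp [hp.st]
  · simp [hp.ts]
  · have h1 := hp.out (σ n) (fun h2 => hn ((hle n m).1 h2))
    simp [h1]
  · have h1 := hp.rel i (⇑σ ∘ v) (fun k => (hle (v k) m).2 (hv k))
    rw [h] at h1
    rw [← h1, ← h i]
    congr 1
    funext k
    simp
  · have h1 := hp.pre (σ u) (σ v) ((hle u m).2 hu) ((hle v m).2 hv)
    rw [hle] at h1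
    rw [← h1, ← hle]
    simp

theorem inv_TW (ε : ℕ) : Inv (TW ε : RS a → Prop) := by
  rintro x y ⟨σ, h⟩ ⟨h1, h2⟩
  have hle : ∀ u v, Le ε y (σ u) (σ v) ↔ Le ε x u v := by
    intro u v
    have h1 := h ε (p2 u v)
    rw [p2_map] at h1
    unfold Le
    rw [h1]
  have hle' : ∀ u v, Le ε y u v ↔ Le ε x (σ.symm u) (σ.symm v) := by
    intro u v
    rw [← hle, σ.apply_symm_apply, σ.apply_symm_apply]
  refine ⟨⟨fun u v => ?_, fun u v w h3 h4 => ?_⟩, fun m => ?_⟩
  · rw [hle', hle']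
    exact h1.total _ _
  · rw [hle'] at h3 h4 ⊢
    exact h1.trans _ _ _ h3 h4
  · rw [countable_iff_base]
    obtain ⟨C, hC⟩ := countable_iff_base.1 (h2 (σ.symm m))
    refine ⟨C.map σ, fun s t hst hs => ?_⟩
    rw [← σ.apply_symm_apply m] at hst
    have h3 := hC _ _ (pa_iso h hst) (fun c hc => by
      have := hs (σ c) (List.mem_map.2 ⟨c, hc, rfl⟩)
      simp [this])
    funext n
    have h4 := congrFun h3 (σ.symm n)
    simp only [Function.comp_apply, Equiv.apply_symm_apply, id_eq] at h4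
    have h5 := σ.symm.injective h4
    exact h5

/-! ### Definable preorders with parameters -/

/-- arities -/
def b1 (a : ℕ → ℕ) (n : ℕ) : ℕ := Nat.casesOn n 2 a

/-- the entries of a pair -/
def w0 (v : Fin (b1 a 0) → ℕ) : ℕ := (show Fin 2 → ℕ from v) 0
def w1 (v : Fin (b1 a 0) → ℕ) : ℕ := (show Fin 2 → ℕ from v) 1

open Classical in
/-- coding -/
noncomputable def cd (D : RS a → ℕ → ℕ → Prop) (x : RS a) : RS (b1 a) := fun n =>
  match n with
  | 0 => fun v => decide (D x (w0 v) (w1 v))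
  | i + 1 => x i

/-- decoding -/
def dc (z : RS (b1 a)) : RS a := fun i => z (i + 1)

/-- families of preorders, with parameters -/
structure Fam (D : ℕ → List ℕ → RS a → ℕ → ℕ → Prop) : Prop where
  meas : ∀ k p m n, MeasurableSet {x | D k p x m n}
  equi : ∀ k p x (σ : Equiv.Perm ℕ) m n, D k (p.map σ) (act σ x) (σ m) (σ n) ↔ D k p x m n

/-- the class -/
def WT (D : ℕ → List ℕ → RS a → ℕ → ℕ → Prop) (x : RS a) : Prop :=
  ∃ k p, TP (D k p x) ∧ ∀ m, (SG x (D k p x) m).Countable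

theorem le_cd (D : RS a → ℕ → ℕ → Prop) (x : RS a) : Le 0 (cd D x) = D x := by
  classical
  funext u v
  apply propext
  show decide (D x u v) = true ↔ _
  exact decide_eq_true_iff

theorem sg_cd (D : RS a → ℕ → ℕ → Prop) (x : RS a) (m : ℕ) :
    SG (cd D x) (D x) m = SG x (D x) m := by
  classical
  ext σ
  constructor
  · rintro ⟨h1, h2⟩
    exact ⟨fun i v => h1 (i + 1) v, h2⟩
  · rintro ⟨h1, h2⟩
    refine ⟨fun n => ?_, h2⟩
    cases n with
    | zero =>
      intro v
      exact decide_eq_decide.2 (h2 ((show Fin 2 → {n // D x n m} from v) 0)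
        ((show Fin 2 → {n // D x n m} from v) 1))
    | succ i => exact h1 i

theorem tw_cd (D : RS a → ℕ → ℕ → Prop) (x : RS a) :
    TW 0 (cd D x) ↔ TP (D x) ∧ ∀ m, (SG x (D x) m).Countable := by
  unfold TW
  rw [le_cd]
  simp only [sg_cd]

theorem pcanon {D : ℕ → List ℕ → RS a → ℕ → ℕ → Prop} (h : Fam D) (k : ℕ) :
    PCanon (fun p => cd (D k p)) (fun _ => (dc : RS (b1 a) → RS a)) := by
  classical
  refine ⟨fun p => ?_, fun p => ?_, fun σ p x => ?_, fun σ p z => rfl⟩
  · refine measurable_pi_lambda _ fun n => ?_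
    cases n with
    | zero =>
      refine measurable_pi_lambda _ fun v => ?_
      refine measurable_to_bool ?_
      have e : (fun x : RS a => cd (D k p) x 0 v) ⁻¹' {true} = {x | D k p x (w0 v) (w1 v)} := by
        ext x
        exact decide_eq_true_iff
      rw [e]
      exact h.meas _ _ _ _
    | succ i => exact measurable_pi_apply i
  · exact measurable_pi_lambda _ fun i => measurable_pi_apply (i + 1)
  · funext n
    cases n with
    | zero =>
      funext v
      show decide (D k (p.map σ) (act σ x) (w0 v) (w1 v)) =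
        decide (D k p x (σ.symm (w0 v)) (σ.symm (w1 v)))
      refine decide_eq_decide.2 ?_
      rw [← h.equi k p x σ, σ.apply_symm_apply, σ.apply_symm_apply]
    | succ i => rfl

theorem pexp_iff {D : ℕ → List ℕ → RS a → ℕ → ℕ → Prop} (k : ℕ) (x : RS a) :
    PExp (fun p => cd (D k p)) (fun _ => (dc : RS (b1 a) → RS a)) (TW 0) x ↔
      ∃ p, TP (D k p x) ∧ ∀ m, (SG x (D k p x) m).Countable := by
  constructor
  · rintro ⟨p, h1, -⟩
    exact ⟨p, (tw_cd _ _).1 h1⟩
  · rintro ⟨p, h1⟩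
    exact ⟨p, (tw_cd _ _).2 h1, rfl⟩

theorem wt_eq (D : ℕ → List ℕ → RS a → ℕ → ℕ → Prop) : (WT D : RS a → Prop) = fun x => ∃ k : ℕ,
    PExp (fun p => cd (D k p)) (fun _ => (dc : RS (b1 a) → RS a)) (TW 0) x := by
  funext x
  apply propext
  unfold WT
  simp only [pexp_iff]

theorem wt_all {D : ℕ → List ℕ → RS a → ℕ → ℕ → Prop} (h : Fam D) :
    VCu (WT D) ∧ Coan (WT D) ∧ Inv (WT D) := by
  rw [wt_eq]
  have h1 := fun k => Pool.Agent.TH425.FF.pexp_vcu (pcanon h k) (vcu_TW 0) (coan_TW 0) (inv_TW 0)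
  have h2 := fun k => Pool.Agent.TH425.FF.pexp_coan (pcanon h k) (coan_TW 0)
  have h3 := fun k => Pool.Agent.TH425.FF.pexp_inv (pcanon h k) (inv_TW 0)
  exact ⟨Pool.Agent.TH425.FF.cun_vcu _ h1 h2 h3, Pool.Agent.TH425.FF.cun_coan _ h2,
    Pool.Agent.TH425.FF.cun_inv _ h3⟩

end Pool.Agent.N481.VT
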